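import Mathlib
import Pool.Agent.R337.VG.Main

/-!
# Project VS (helper88, MP_651af7_nt): points of degree `r` and divisors with a highly transitive
Galois group. Statements of the jobs.

`mm f` is the Mahler measure of `f : ℤ[X]` (`Pool.Agent.H990R4.VJ.mm`), `av p n` the `p`-adic absolute
value of the integer `n` (`Pool.Agent.W226.VQ.av`), `Viol` is defined in `Pool.Agent.R337.VG.Main`.
-/

set_option autoImplicit false

namespace Pool.Agent.H88V

open Polynomial Finset Module NumberField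
open scoped IntermediateField
open Pool.Agent.H990R4.VJ (mm)
open Pool.Agent.W226.VQ (av)
open Pool.Agent.R337.VG (Viol)

/-- the vector `(1, z, …, z ^ r)` -/
def vec (r : ℕ) (z : ℂ) : Fin (r + 1) → ℂ := fun i => z ^ (i : ℕ)

/-- a rational vector as a complex vector -/
def cx {n : ℕ} (u : Fin n → ℚ) : Fin n → ℂ := fun i => (u i : ℂ)

/-- for all rational subspaces `U` of `ℚ ^ (r + 1)` and all sets `A` of at most `r` zeros of `G` the
dimension of the intersection of `U` (over `ℂ`) with the span of the vectors `(1, z, …, z ^ r)`,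
`z ∈ A`, is at most `|A| dim U / (r + 1)` -/
def Semistable (G : ℤ[X]) (r : ℕ) : Prop :=
  ∀ (A : Finset ℂ) (U : Submodule ℚ (Fin (r + 1) → ℚ)), (∀ z ∈ A, aeval z G = 0) → A.card ≤ r →
    (r + 1) * finrank ℂ (Submodule.span ℂ (vec r '' (A : Set ℂ)) ⊓
      Submodule.span ℂ (cx '' (U : Set (Fin (r + 1) → ℚ))) : Submodule ℂ (Fin (r + 1) → ℂ)) ≤
      A.card * finrank ℚ U

/-- any two sets of zeros of `G` with the same number `≤ r` of elements are conjugate -/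
def Homogeneous (G : ℤ[X]) (r : ℕ) : Prop :=
  ∀ A A' : Finset ℂ, (∀ z ∈ A, aeval z G = 0) → (∀ z ∈ A', aeval z G = 0) →
    A.card = A'.card → A.card ≤ r → ∃ σ : ℂ ≃+* ℂ, A.image σ = A'

/-- **HS.** (linear algebra over `ℂ`, Mathlib only.) Proof. Fix `U`, `u = dim U`, and for a finite set
`A` of zeros let `d(A)` be the dimension of `T(A) = span (vec r '' A) ⊓ U_ℂ`. A ring automorphism `σ`
of `ℂ`, applied to the coordinates, is a semilinear bijection of `ℂ ^ (r+1)` which maps `U_ℂ` to itself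
and `span (vec r '' A)` to `span (vec r '' (A.image σ))`; so `d(A) = d(A.image σ)`, and by the
hypothesis `d(A)` depends only on `|A|` if `|A| ≤ r`. The vectors `vec r z`, `z ∈ B`, are linearly
independent if `|B| ≤ r + 1` (Vandermonde). Let `|B| = a + 1 ≤ r + 1` and `z ∈ B`. Then
`d(B) ≤ d(B \ {z}) + 1`. CLAIM: if `d(B \ {z}) ≥ 1` then `d(B) ≥ d(B \ {z}) + 1`. Otherwise the spaces
`T(B \ {z'})`, `z' ∈ B`, all have the same dimension `a`-number `d_a ≥ 1` (homogeneity, `a ≤ r`), are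
contained in `T(B)` of the same dimension, so they are all equal to `T(B)`; but the intersection of
the spans of `B \ {z'}` over all `z' ∈ B` is `0` by independence, a contradiction. Now let `|A| = a ≤ r`,
`d(A) ≥ 1` (otherwise there is nothing to show). Choose a chain `A = B_a ⊂ B_{a+1} ⊂ … ⊂ B_{r+1}` of sets
of zeros (there are `r + 1` zeros in `R`; if `A ⊄ R` take `A'⊆ R` with `|A'| = |A|`, or take the chain in
`R ∪ A`). By the claim `d(B_{r+1}) ≥ d(A) + (r + 1 - a)`, and `d(B_{r+1}) = dim U_ℂ = u ≤ r + 1` (in fact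
`≤ u` is enough). So `d(A) ≤ u - (r + 1 - a)` and `(r + 1) d(A) ≤ a u` because
`(r + 1 - a) (r + 1 - u) ≥ 0`. -/
def S_HS : Prop := ∀ (G : ℤ[X]) (r : ℕ) (R : Finset ℂ), (∀ z ∈ R, aeval z G = 0) →
  r + 1 ≤ R.card → Homogeneous G r → Semistable G r

/-- **PACK.** (Mathlib only.) Proof. `V = {x | p x < 1}` is open, bounded, nonempty: its Lebesgue
measure is positive and finite. The translates `x + (s/2) V`, `x ∈ E`, are disjoint and contained in
`(1 + s/2) V`, so `|E| (s/2)^n vol V ≤ (1 + s/2)^n vol V` (compare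
`Besicovitch.card_le_of_separated`). -/
def S_PACK : Prop := ∀ (n : ℕ) (p : Seminorm ℝ (Fin n → ℝ)), Continuous p →
  ∀ R : ℝ, (∀ x, ‖x‖ ≤ R * p x) → ∀ s : ℝ, 0 < s → ∀ E : Finset (Fin n → ℝ),
    (∀ x ∈ E, p x ≤ 1) → (∀ x ∈ E, ∀ y ∈ E, x ≠ y → s ≤ p (x - y)) →
    (E.card : ℝ) ≤ (1 + 2 / s) ^ n

/-- the bound `C₀ Y ^ φ` for the number of the number fields of degree `r` and discriminant at
most `Y` -/
def FewFields (r : ℕ) (φ C₀ : ℝ) : Prop := ∀ Y : ℝ, 1 ≤ Y → ∀ F : Finset (IntermediateField ℚ ℂ),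
  (∀ K ∈ F, ∃ _ : NumberField K, finrank ℚ K = r ∧ |(discr K : ℝ)| ≤ Y) →
  (F.card : ℝ) ≤ C₀ * Y ^ φ

/-- The exponent `(n + 2) * (n - 1) / (4 * (n - n / p))`, `p` the least prime factor of `n`; it is
`(n + 2) / 4` for every prime `n`. -/
noncomputable def expo (n : ℕ) : ℝ :=
  (((n + 2) * (n - 1) : ℕ) : ℝ) / (4 * ((n - n / n.minFac : ℕ) : ℝ))

/-- **FLD.** The exponents for the number of number fields. Take `φ n = min (n / 2) (min (e n) (eS n))`
for `n ≠ 3` and `φ 3 = 1`, with `e`, `eS` from `Pool.Agent.W222.UABC.Final` (`linnik`, `schmidt`, see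
the proof of `viol_all` there: counts of `FS ℚ n X`, a set of subfields of `AlgebraicClosure ℚ`), the
bound `n / 2` is `Pool.Agent.R337.VG.fields_count`, the case `n = 3` is `Pool.Agent.H88.…davenport` in
`Pool/Agent/H88/CP7.lean` (on main). For `n = 2` all of them give `1` (`eS 2 = 1 = 2 / 2`; if `e 2 < 1`
just define `φ 2 = 1`). The subfields of `ℂ` correspond to subfields of `AlgebraicClosure ℚ`: choose
an embedding `AlgebraicClosure ℚ →ₐ[ℚ] ℂ`; every number field in `ℂ` is the image of a subfield of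
the same degree and discriminant (isomorphic field). -/
def S_FLD : Prop := ∃ φ : ℕ → ℝ, φ 2 = 1 ∧ φ 3 = 1 ∧
  (∀ n : ℕ, 2 ≤ n → 0 ≤ φ n ∧ φ n ≤ (n : ℝ) / 2 ∧ φ n ≤ expo n) ∧
  (∀ c : ℝ, 1 / (8 * (Real.log 2) ^ 2) < c →
    ∀ᶠ n : ℕ in Filter.atTop, φ n ≤ c * (Real.log n) ^ 2) ∧
  ∀ n : ℕ, 2 ≤ n → ∀ δ : ℝ, 0 < δ → ∃ C₀ : ℝ, 0 < C₀ ∧ FewFields n (φ n + δ) C₀

/-- **T1.** The exceptional points in fields of small discriminant. Proof: exactly as the part
small discriminant (`hb1`, and `hb0`) of the proof of `Pool.Agent.R337.VG.main`, with the general `τ`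
and with `FewFields` in place of `fields_count`. -/
def S_T1 : Prop := ∀ (r q : ℕ), 2 ≤ r → 2 ≤ q → ∀ G : ℤ[X], G ≠ 0 →
  (G.map (Int.castRingHom ℚ)).Separable → G.natDegree ≤ q → q ≤ G.natDegree + 1 →
  ∀ S : Finset ℕ, (∀ p ∈ S, p.Prime) → ∀ ε K₁ τ δ φ C₀ : ℝ, 0 < ε → 0 < K₁ → 0 ≤ τ → 0 < δ →
  0 ≤ φ → 0 < C₀ → FewFields r φ C₀ →
  ∃ C : ℝ, 0 < C ∧ ∀ L : ℝ, 0 ≤ L → ∀ (E : Finset ℂ) (D : ℂ → ℝ),
    (∀ x ∈ E, 0 ≤ D x ∧ D x ≤ τ * L ∧
      (∃ _ : NumberField ℚ⟮x⟯, |(discr ℚ⟮x⟯ : ℝ)| = Real.exp (D x)) ∧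
      ∃ f, Viol r q G S ε K₁ L (D x) x f) →
    (E.card : ℝ) ≤ C * Real.exp ((φ * τ + δ) * L)

/-- The local data: `ν v f j` is the absolute value at `v` (`v = none` for the infinite place,
`v = some p` for `p ∈ S`) of the value of `f` at the `j`-th zero of `G`. -/
structure Data (r q : ℕ) (G : ℤ[X]) (S : Finset ℕ) (ν : Option ℕ → ℤ[X] → Fin q → ℝ) (W : ℝ) :
    Prop where
  W0 : 0 ≤ W
  /-- positivity -/
  pos : ∀ (v : Option ℕ) (f : ℤ[X]) (j : Fin q), (∀ p, v = some p → p ∈ S) → f ≠ 0 →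
    f.natDegree ≤ r → 0 < ν v f j
  /-- the infinite place -/
  arch : ∃ α : Fin q → ℂ, ∀ (f : ℤ[X]) (j : Fin q), ν none f j = ‖aeval (α j) f‖
  /-- the ultrametric inequality -/
  ultra : ∀ p ∈ S, ∀ (f g : ℤ[X]) (j : Fin q),
    ν (some p) (f - g) j ≤ max (ν (some p) f j) (ν (some p) g j)
  /-- at most `r` of the values are small -/
  gp : ∀ f : ℤ[X], f.natDegree ≤ r → ∀ T : Finset (Fin q), r < T.card → ∀ s : ℝ,
    (∀ j ∈ T, ν none f j ≤ s) → ∀ i : ℕ, |((f.coeff i : ℤ) : ℝ)| ≤ Real.exp W * s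
  gpp : ∀ p ∈ S, ∀ f : ℤ[X], f.natDegree ≤ r → ∀ T : Finset (Fin q), r < T.card → ∀ s : ℝ,
    (∀ j ∈ T, ν (some p) f j ≤ s) → ∀ i : ℕ, av p (f.coeff i) ≤ Real.exp W * s
  /-- upper bounds -/
  up : ∀ f : ℤ[X], f.natDegree ≤ r → ∀ Y : ℝ, (∀ i : ℕ, |((f.coeff i : ℤ) : ℝ)| ≤ Y) →
    ∀ j : Fin q, ν none f j ≤ Real.exp W * Y
  upp : ∀ p ∈ S, ∀ f : ℤ[X], f.natDegree ≤ r → ∀ j : Fin q, ν (some p) f j ≤ Real.exp W
  /-- the resultant is the product of the values, up to a constant -/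
  res : ∀ f : ℤ[X], f.natDegree = r → resultant f G r q ≠ 0 →
    ∑ j, Real.log (ν none f j) ≤ Real.log |((resultant f G r q : ℤ) : ℝ)| + W
  resp : ∀ p ∈ S, ∀ f : ℤ[X], f.natDegree = r → resultant f G r q ≠ 0 →
    ∑ j, Real.log (ν (some p) f j) ≤ Real.log (av p (resultant f G r q)) + W
  /-- the subspace theorem, without exceptional subspaces -/
  sub : ∀ ε' : ℝ, 0 < ε' → ∃ C : ℝ, 0 ≤ C ∧ ∀ h : ℤ[X], h ≠ 0 → h.natDegree ≤ r → ∀ Y : ℝ,
    (∀ i : ℕ, |((h.coeff i : ℤ) : ℝ)| ≤ Y) → ∀ β : Option ℕ → Fin (r + 1) → Fin q,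
    (∀ v, Function.Injective (β v)) →
    -(ε' * Real.log Y) - C ≤ ∑ a, Real.log (ν none h (β none a)) +
      ∑ p ∈ S, ∑ a, Real.log (ν (some p) h (β (some p) a))

/-- **FB.** (short) If `ε > r - 1` the exceptional polynomials have bounded Mahler measure. Proof. Let
`x = log (mm f) ≥ 0`. The coefficients of `f` are at most `Y = 2 ^ r * mm f` (`coeff_le` in
`Pool.Agent.H990R4.VJ`), some coefficient is at least `mm f / (r + 1)` (`Pool.Agent.R337.VG.mm_le`), and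
for every prime `p` some coefficient is not divisible by `p` (`Pool.Agent.R337.VG.prim_at`). By `gp`
(`gpp`) at each place at most `r` of the values `ν v f j` are smaller than `exp (-C₁) * mm f` (at `p`:
than `exp (-C₁)`); choose `β v` injective such that its range contains these `j` (`r + 1 ≤ q`). By `up`,
`res`: `∑_a log ν none f (β none a) ≤ (r + 1) x + C₂ - (q x - log |R|)`, since
`∑_{all j} log ν ≤ log |R| + W` and for the `j` outside the range `log ν ≥ x - C₁`. Likewise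
`∑_a log ν (some p) f (β (some p) a) ≤ log (av p R) + C₂`. By `sub` with `Y`:
`-ε' (x + r log 2) - C ≤ (r + 1) x - q x + log |R| + ∑_p log (av p R) + C₃
 ≤ (r + 1) x - q x + (q - 2 - ε) x + log K₁ + C₃ = (r - 1 - ε) x + log K₁ + C₃`; take
`ε' = (ε - (r - 1)) / 2`. -/
def S_FB : Prop := ∀ (r q : ℕ), 2 ≤ r → r + 1 ≤ q → ∀ (G : ℤ[X]) (S : Finset ℕ),
  (∀ p ∈ S, p.Prime) → ∀ (ν : Option ℕ → ℤ[X] → Fin q → ℝ) (W : ℝ), Data r q G S ν W →
  ∀ ε K₁ : ℝ, (r : ℝ) - 1 < ε → 0 < K₁ → ∃ M : ℝ, ∀ f : ℤ[X], Irreducible f → f.natDegree = r →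
    resultant f G r q ≠ 0 →
    |((resultant f G r q : ℤ) : ℝ)| * (∏ p ∈ S, av p (resultant f G r q)) ≤
      K₁ * mm f ^ ((q : ℝ) - 2 - ε) → Real.log (mm f) ≤ M

/-- **T2.** The exceptional polynomials for fields of large discriminant. Write `V = {none} ∪ {some p |
p ∈ S}` and `R` for the resultant, `x = log (mm f) ∈ [0, L]`, `Y_f = 2 ^ r * mm f` (a bound for the
coefficients, `coeff_le`).

(a) Put `y none j = W + log Y_f - log ν none f j ≥ 0`, `y (some p) j = W - log ν (some p) f j ≥ 0`. As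
in `S_FB` at most `r` of the `y v j` are larger than a constant `C₁` at each place `v`. So there are
injective `β v : Fin (r + 1) → Fin q` with `∑_j y v j ≤ ∑_a y v (β v a) + q C₁`. With `res`, `resp`
and the hypothesis: `∑_v ∑_a y v (β v a) ≥ q x - log |R| - ∑_p log (av p R) - C₂ ≥
(2 + ε) x + τ L - C₃`.

(b) Labels. Let `η > 0` be small (depending on `δ`, `r`, `q`, `|S|`, `τ`, `ε`), `λ = η (L + 1)`, `N₀` with
`N₀ η ≥ 2 + ε + τ`, `a v j = min N₀ ⌊y v j / λ⌋`, `n = ⌊x / λ⌋ ≤ 1 / η`. The number of the labels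
`(n, (a v j))` is bounded by a constant depending on `η`. By (a)
`∑_v ∑_a λ a v (β v a) ≥ A := (2 + ε) x₀ + τ L - C₃ - (r + 1) (|S| + 1) λ` with `x₀ = n λ ≤ x`
(if some `a v (β v a)` is `N₀` then the left side is at least `N₀ λ ≥ (2 + ε + τ) (L + 1)`).

(c) One class. Let all `f` in a finite set `K` have the same label `(n, a)`; the `β v` are those of one
member. Let `Y = 2 ^ r * exp ((n + 1) λ)`. Then `|coeff| ≤ Y`, `ν none f j ≤ exp W * Y * exp (-(λ a none j))`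
and `ν (some p) f j ≤ exp W * exp (-(λ a (some p) j))`. Consider the seminorm (a norm)
`P(h) = max (max_i |h_i| / Y) (max_j |∑ h_i α_j ^ i| / (exp W * Y * exp (-(λ a none j))))` on
`ℝ ^ (r + 1)`; all `f ∈ K` have `P(f) ≤ 1`. Let `s > 0`, and `f ≠ g` in `K` with `P(f - g) < s`. Then
`h = f - g` has coefficients at most `s Y`, `ν none h j ≤ s exp W * Y * exp (-(λ a none j))`, and by
`ultra` `ν (some p) h j ≤ exp W * exp (-(λ a (some p) j))`. By `sub`, applied with the bound `s Y`: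
`-ε' log (s Y) - C ≤ (r + 1) (log (s Y) + W) + |S| (r + 1) W - ∑_v ∑_a λ a v (β v a)`, so
`A ≤ (r + 1 + ε') log (s Y) + C₄`. So if `s` is chosen with `(r + 1 + ε') log (s Y) = A - C₄ - 1` then
different members of `K` have `P(f - g) ≥ s`, and by `S_PACK` `|K| ≤ (1 + 2 / s) ^ (r + 1)
≤ 3 ^ (r + 1) max (1, s ^ (-(r + 1)))`, where
`-(r + 1) log s = (r + 1) log Y - (r + 1) (A - C₄ - 1) / (r + 1 + ε') ≤
(r + 1) n λ + (r + 1) λ + (r + 1) r log 2 - A + ε' |A| + C₄ + 1`, and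
`(r + 1) n λ - A = (r - 1 - ε) n λ - τ L + C₃ + (r + 1) (|S| + 1) λ ≤ max 0 (r - 1 - ε - τ) L + …`
because `0 ≤ n λ ≤ L`. Choose `ε'` and `η` so small that the error terms are at most `δ L + const`.

The proof of `Pool.Agent.R337.VG.typeII` is a model for the labels. -/
def S_T2 : Prop := S_PACK → ∀ (r q : ℕ), 2 ≤ r → r + 1 ≤ q → ∀ (G : ℤ[X]) (S : Finset ℕ),
  (∀ p ∈ S, p.Prime) → ∀ (ν : Option ℕ → ℤ[X] → Fin q → ℝ) (W : ℝ), Data r q G S ν W →
  ∀ ε K₁ τ δ : ℝ, 0 < ε → 0 < K₁ → 0 ≤ τ → 0 < δ → ∃ C : ℝ, 0 < C ∧ ∀ L : ℝ, 0 ≤ L →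
  ∀ E : Finset ℤ[X],
    (∀ f ∈ E, Irreducible f ∧ f.natDegree = r ∧ Real.log (mm f) ≤ L ∧ resultant f G r q ≠ 0 ∧
      |((resultant f G r q : ℤ) : ℝ)| * (∏ p ∈ S, av p (resultant f G r q)) *
        Real.exp (τ * L) ≤ K₁ * mm f ^ ((q : ℝ) - 2 - ε)) →
    (E.card : ℝ) ≤ C * Real.exp ((max 0 ((r : ℝ) - 1 - ε - τ) + δ) * L)

/-- **DATA.** (helper88, from the subspace theorem of R405.) -/
def S_DATA : Prop := ∀ (r q : ℕ), 2 ≤ r → r + 1 ≤ q → ∀ G : ℤ[X], G.natDegree = q →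
  (G.map (Int.castRingHom ℚ)).Separable → Semistable G r → ∀ S : Finset ℕ, (∀ p ∈ S, p.Prime) →
  ∃ (ν : Option ℕ → ℤ[X] → Fin q → ℝ) (W : ℝ), Data r q G S ν W

end Pool.Agent.H88V
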