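import Mathlib
import Pool.Agent.H88V.Stm

set_option autoImplicit false

namespace Pool.Agent.H88V.FB

open Polynomial Finset
open Pool.Agent.H990R4.VJ (mm one_le_mm coeff_le)
open Pool.Agent.W226.VQ (av av_nonneg av_le_one av_pos av_eq_one)
open Pool.Agent.R337.VG (mm_le prim_at)
open Pool.Agent.H88V

/-- a set of at most `r + 1` elements of `Fin q` is in the range of an injective map -/
lemma exists_beta (r q : ℕ) (hq : r + 1 ≤ q) (T : Finset (Fin q)) (hT : T.card ≤ r) :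
    ∃ β : Fin (r + 1) → Fin q, Function.Injective β ∧ ∀ j ∈ T, ∃ a, β a = j := by
  obtain ⟨T', h1, -, h2⟩ := Finset.exists_subsuperset_card_eq (Finset.subset_univ T)
    (show T.card ≤ r + 1 by omega) (by rw [Finset.card_univ, Fintype.card_fin]; exact hq)
  refine ⟨T'.orderEmbOfFin h2, (T'.orderEmbOfFin h2).injective, fun j hj => ?_⟩
  have h3 : j ∈ Set.range (T'.orderEmbOfFin h2) := by
    rw [Finset.range_orderEmbOfFin]; exact h1 hj
  exact h3

/-- the sum over the range of `β` -/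
lemma sum_beta (r q : ℕ) (hq : r + 1 ≤ q) (T : Finset (Fin q)) (β : Fin (r + 1) → Fin q)
    (hβ : Function.Injective β) (hT : ∀ j ∈ T, ∃ a, β a = j) (y : Fin q → ℝ) (s : ℝ)
    (hy : ∀ j, j ∉ T → s ≤ y j) :
    ∑ a, y (β a) ≤ ∑ j, y j - ((q : ℝ) - (r + 1)) * s := by
  classical
  have h1 : ∑ a, y (β a) = ∑ j ∈ Finset.univ.image β, y j :=
    (Finset.sum_image fun a _ b _ h => hβ h).symm
  have h2 : ∑ j ∈ Finset.univ.image β, y j + ∑ j ∈ (Finset.univ.image β)ᶜ, y j = ∑ j, y j :=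
    Finset.sum_add_sum_compl _ _
  have h3 : ((Finset.univ.image β)ᶜ).card • s ≤ ∑ j ∈ (Finset.univ.image β)ᶜ, y j := by
    refine Finset.card_nsmul_le_sum _ _ _ fun j hj => hy j fun hjT => ?_
    obtain ⟨a, rfl⟩ := hT j hjT
    rw [Finset.mem_compl] at hj
    exact hj (Finset.mem_image_of_mem _ (Finset.mem_univ _))
  have h4 : (Finset.univ.image β).card = r + 1 := by
    rw [Finset.card_image_of_injective _ hβ, Finset.card_univ, Fintype.card_fin]
  have h5 : (((Finset.univ.image β)ᶜ).card : ℝ) = (q : ℝ) - (r + 1) := by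
    rw [Finset.card_compl, h4, Fintype.card_fin, Nat.cast_sub hq]
    push_cast; ring
  rw [nsmul_eq_mul, h5] at h3
  rw [h1]
  linarith

/-- the bound at the infinite place -/
lemma inf_bound (r q : ℕ) (hr : 2 ≤ r) (hq : r + 1 ≤ q) (G : ℤ[X]) (S : Finset ℕ)
    (ν : Option ℕ → ℤ[X] → Fin q → ℝ) (W : ℝ) (hD : Data r q G S ν W) (f : ℤ[X])
    (hf : Irreducible f) (hd : f.natDegree = r) (hR : resultant f G r q ≠ 0) :
    ∃ β : Fin (r + 1) → Fin q, Function.Injective β ∧
      ∑ a, Real.log (ν none f (β a)) ≤ Real.log |((resultant f G r q : ℤ) : ℝ)| + W -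
        ((q : ℝ) - (r + 1)) * (Real.log (mm f) - W - Real.log (2 * (r + 1))) := by
  classical
  have hm1 : 1 ≤ mm f := one_le_mm hf.ne_zero
  have hm0 : 0 < mm f := by linarith
  have hr1 : (0 : ℝ) < r + 1 := by positivity
  obtain ⟨s, hs⟩ : ∃ s : ℝ, s = Real.exp (-W) * (mm f / (2 * (r + 1))) := ⟨_, rfl⟩
  have hs0 : 0 < s := by rw [hs]; positivity
  have hT : (Finset.univ.filter fun j => ν none f j ≤ s).card ≤ r := by
    by_contra hcon
    push Not at hcon
    have h1 := hD.gp f hd.le _ hcon s fun j hj => (Finset.mem_filter.1 hj).2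
    obtain ⟨i, hi, -⟩ := mm_le f r hd.le
    have h2 := h1 i
    rw [hs, ← mul_assoc, ← Real.exp_add, add_neg_cancel, Real.exp_zero, one_mul,
      le_div_iff₀ (by positivity)] at h2
    nlinarith
  obtain ⟨β, hβ, hβT⟩ := exists_beta r q hq _ hT
  refine ⟨β, hβ, ?_⟩
  have h3 := sum_beta r q hq _ β hβ hβT (fun j => Real.log (ν none f j)) (Real.log s)
    fun j hj => by
      have h4 : ¬ ν none f j ≤ s := fun h => hj (Finset.mem_filter.2 ⟨Finset.mem_univ _, h⟩)
      exact Real.log_le_log hs0 (not_le.1 h4).le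
  have h5 := hD.res f hd hR
  have h6 : Real.log s = Real.log (mm f) - W - Real.log (2 * (r + 1)) := by
    rw [hs, Real.log_mul (Real.exp_pos _).ne' (by positivity), Real.log_exp,
      Real.log_div hm0.ne' (by positivity)]
    ring
  rw [h6] at h3
  linarith

/-- the bound at a prime -/
lemma p_bound (r q : ℕ) (hr : 2 ≤ r) (hq : r + 1 ≤ q) (G : ℤ[X]) (S : Finset ℕ)
    (ν : Option ℕ → ℤ[X] → Fin q → ℝ) (W : ℝ) (hD : Data r q G S ν W) (f : ℤ[X])
    (hf : Irreducible f) (hd : f.natDegree = r) (hR : resultant f G r q ≠ 0) (p : ℕ) (hpS : p ∈ S)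
    (hp : p.Prime) :
    ∃ β : Fin (r + 1) → Fin q, Function.Injective β ∧
      ∑ a, Real.log (ν (some p) f (β a)) ≤ Real.log (av p (resultant f G r q)) + W +
        ((q : ℝ) - (r + 1)) * (W + Real.log 2) := by
  classical
  obtain ⟨s, hs⟩ : ∃ s : ℝ, s = Real.exp (-W) * (1 / 2) := ⟨_, rfl⟩
  have hs0 : 0 < s := by rw [hs]; positivity
  have hT : (Finset.univ.filter fun j => ν (some p) f j ≤ s).card ≤ r := by
    by_contra hcon
    push Not at hcon
    have h1 := hD.gpp p hpS f hd.le _ hcon s fun j hj => (Finset.mem_filter.1 hj).2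
    obtain ⟨i, hi⟩ := prim_at f r hd.le (hf.isPrimitive (by omega)) p hp
    have h2 := h1 i
    rw [av_eq_one p hp hi, hs, ← mul_assoc, ← Real.exp_add, add_neg_cancel, Real.exp_zero] at h2
    norm_num at h2
  obtain ⟨β, hβ, hβT⟩ := exists_beta r q hq _ hT
  refine ⟨β, hβ, ?_⟩
  have h3 := sum_beta r q hq _ β hβ hβT (fun j => Real.log (ν (some p) f j)) (Real.log s)
    fun j hj => by
      have h4 : ¬ ν (some p) f j ≤ s := fun h => hj (Finset.mem_filter.2 ⟨Finset.mem_univ _, h⟩)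
      exact Real.log_le_log hs0 (not_le.1 h4).le
  have h5 := hD.resp p hpS f hd hR
  have h6 : Real.log s = -W - Real.log 2 := by
    rw [hs, Real.log_mul (Real.exp_pos _).ne' (by norm_num), Real.log_exp,
      Real.log_div one_ne_zero (by norm_num), Real.log_one]
    ring
  rw [h6] at h3
  linarith

theorem t : S_FB := by
  classical
  intro r q hr hq G S hS ν W hD ε K₁ hε hK₁
  obtain ⟨ε', hε'⟩ : ∃ ε' : ℝ, ε' = (ε - ((r : ℝ) - 1)) / 2 := ⟨_, rfl⟩
  have hε'0 : 0 < ε' := by rw [hε']; linarith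
  obtain ⟨C, hC, hsub⟩ := hD.sub ε' hε'0
  obtain ⟨C', hC'⟩ : ∃ C' : ℝ, C' = Real.log K₁ + W +
      ((q : ℝ) - (r + 1)) * (W + Real.log (2 * (r + 1))) +
      S.card * (W + ((q : ℝ) - (r + 1)) * (W + Real.log 2)) := ⟨_, rfl⟩
  refine ⟨(C' + C + ε' * (r * Real.log 2)) / ε', fun f hf hd hR hV => ?_⟩
  have hm1 : 1 ≤ mm f := one_le_mm hf.ne_zero
  have hm0 : 0 < mm f := by linarith
  have hx : 0 ≤ Real.log (mm f) := Real.log_nonneg hm1
  obtain ⟨β₀, hβ₀, hb₀⟩ := inf_bound r q hr hq G S ν W hD f hf hd hR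
  have hp := fun (p : ℕ) (hpS : p ∈ S) => p_bound r q hr hq G S ν W hD f hf hd hR p hpS (hS p hpS)
  have : Nonempty (Fin (r + 1) → Fin q) := ⟨β₀⟩
  choose! β₁ hβ₁ hb₁ using hp
  obtain ⟨βv, hβv0, hβvp, hβv⟩ : ∃ βv : Option ℕ → Fin (r + 1) → Fin q, βv none = β₀ ∧
      (∀ p ∈ S, βv (some p) = β₁ p) ∧ ∀ v, Function.Injective (βv v) := by
    refine ⟨fun v => Option.elim v β₀ (fun p => if p ∈ S then β₁ p else β₀), rfl, ?_, ?_⟩
    · intro p hpS
      simp only [Option.elim, if_pos hpS]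
    · rintro (_ | p)
      · exact hβ₀
      · by_cases hpS : p ∈ S
        · simp only [Option.elim, if_pos hpS]; exact hβ₁ p hpS
        · simp only [Option.elim, if_neg hpS]; exact hβ₀
  have hcoef : ∀ i : ℕ, |((f.coeff i : ℤ) : ℝ)| ≤ 2 ^ r * mm f := by
    intro i
    have h1 := coeff_le f i
    rw [hd] at h1
    exact h1
  have h1 := hsub f hf.ne_zero hd.le (2 ^ r * mm f) hcoef βv hβv
  have hY : Real.log (2 ^ r * mm f) = r * Real.log 2 + Real.log (mm f) := by
    rw [Real.log_mul (by positivity) hm0.ne', Real.log_pow]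
  rw [hY, hβv0] at h1
  have h2 : ∑ p ∈ S, ∑ a, Real.log (ν (some p) f (βv (some p) a)) ≤
      ∑ p ∈ S, (Real.log (av p (resultant f G r q)) + (W +
        ((q : ℝ) - (r + 1)) * (W + Real.log 2))) := by
    refine Finset.sum_le_sum fun p hpS => ?_
    rw [hβvp p hpS, ← add_assoc]
    exact hb₁ p hpS
  rw [Finset.sum_add_distrib, Finset.sum_const, nsmul_eq_mul] at h2
  have hRr : (0 : ℝ) < |((resultant f G r q : ℤ) : ℝ)| := abs_pos.2 (by exact_mod_cast hR)
  have hprod : 0 < ∏ p ∈ S, av p (resultant f G r q) :=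
    Finset.prod_pos fun p hpS => av_pos p (hS p hpS) hR
  have h3 := Real.log_le_log (by positivity) hV
  rw [Real.log_mul hRr.ne' hprod.ne', Real.log_mul hK₁.ne' (Real.rpow_pos_of_pos hm0 _).ne',
    Real.log_rpow hm0, Real.log_prod (fun p hpS => (av_pos p (hS p hpS) hR).ne')] at h3
  rw [le_div_iff₀ hε'0]
  have h4 : 2 * ε' = ε - ((r : ℝ) - 1) := by rw [hε']; ring
  nlinarith [h1, h2, h3, hb₀, h4, hC']

end Pool.Agent.H88V.FB
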