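import Mathlib
import Pool.Agent.H88V.Stm

/-! # Project VS, job HS: homogeneous zeros give a semistable system -/

set_option autoImplicit false

namespace Pool.Agent.H88V.HS

open Polynomial Finset Module

/-- linear independence of the vectors `vec r z` -/
theorem indep (r : ℕ) (B : Finset ℂ) (hB : B.card ≤ r + 1) (c : ℂ → ℂ)
    (h : ∑ z ∈ B, c z • vec r z = 0) : ∀ z ∈ B, c z = 0 := by
  classical
  have key : ∀ p : ℂ[X], p.natDegree ≤ r → ∑ z ∈ B, c z * p.eval z = 0 := by
    intro p hp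
    have h1 : ∀ z, p.eval z = ∑ i : Fin (r+1), p.coeff i * z ^ (i : ℕ) := by
      intro z
      rw [Polynomial.eval_eq_sum_range' (n := r+1) (by omega), Finset.sum_range]
    have h2 : ∀ i : Fin (r+1), ∑ z ∈ B, c z * z ^ (i:ℕ) = 0 := by
      intro i
      have := congrFun h i
      simpa [vec, Finset.sum_apply] using this
    calc ∑ z ∈ B, c z * p.eval z
        = ∑ z ∈ B, ∑ i : Fin (r+1), p.coeff i * (c z * z ^ (i:ℕ)) := by
          refine Finset.sum_congr rfl fun z _ => ?_
          rw [h1, Finset.mul_sum]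
          refine Finset.sum_congr rfl fun i _ => by ring
      _ = ∑ i : Fin (r+1), p.coeff i * ∑ z ∈ B, c z * z ^ (i:ℕ) := by
          rw [Finset.sum_comm]
          refine Finset.sum_congr rfl fun i _ => by rw [Finset.mul_sum]
      _ = 0 := by simp [h2]
  intro z hz
  have h3 := key (∏ w ∈ B.erase z, (X - C w)) (by
    rw [natDegree_prod_of_monic _ _ (fun w _ => monic_X_sub_C w)]
    simp only [natDegree_X_sub_C, Finset.sum_const, smul_eq_mul, mul_one]
    rw [Finset.card_erase_of_mem hz]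
    omega)
  rw [Finset.sum_eq_single z] at h3
  · rcases mul_eq_zero.mp h3 with h4 | h4
    · exact h4
    · exfalso
      rw [eval_prod, Finset.prod_eq_zero_iff] at h4
      obtain ⟨w, hw, hw'⟩ := h4
      simp only [eval_sub, eval_X, eval_C] at hw'
      exact (Finset.mem_erase.mp hw).1 (sub_eq_zero.mp hw').symm
  · intro w hw hwz
    rw [eval_prod, Finset.prod_eq_zero (Finset.mem_erase.mpr ⟨hwz, hw⟩) (by simp), mul_zero]
  · intro h; exact absurd hz h

theorem mem_sp (r : ℕ) (B : Finset ℂ) (x : Fin (r + 1) → ℂ)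
    (hx : x ∈ Submodule.span ℂ (vec r '' (B : Set ℂ))) : ∃ c : ℂ → ℂ, ∑ z ∈ B, c z • vec r z = x := by
  classical
  exact (Submodule.mem_span_image_finset_iff_exists_fun' ℂ).mp hx

/-- the intersection of the spans of `B \ {z}` is zero -/
theorem inter (r : ℕ) (B : Finset ℂ) (hB : B.card ≤ r + 1) (hne : B.Nonempty)
    (x : Fin (r + 1) → ℂ)
    (hx : ∀ z ∈ B, x ∈ Submodule.span ℂ (vec r '' ((B.erase z : Finset ℂ) : Set ℂ))) : x = 0 := by
  classical
  have hx' : ∀ z ∈ B, ∃ c : ℂ → ℂ, c z = 0 ∧ ∑ w ∈ B, c w • vec r w = x := by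
    intro z hz
    obtain ⟨c, hc⟩ := mem_sp r _ x (hx z hz)
    refine ⟨fun w => if w = z then 0 else c w, by simp, ?_⟩
    rw [← Finset.add_sum_erase _ _ hz, ← hc]
    simp only [if_true, zero_smul, zero_add]
    refine Finset.sum_congr rfl fun w hw => ?_
    rw [if_neg (Finset.mem_erase.mp hw).1]
  obtain ⟨z0, hz0⟩ := hne
  obtain ⟨c, hc0, hc⟩ := hx' z0 hz0
  have hall : ∀ z ∈ B, c z = 0 := by
    intro z hz
    obtain ⟨c', hc'0, hc'⟩ := hx' z hz
    have h1 : ∑ w ∈ B, (c w - c' w) • vec r w = 0 := by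
      simp only [sub_smul, Finset.sum_sub_distrib, hc, hc', sub_self]
    have := indep r B hB (fun w => c w - c' w) h1 z hz
    simp only [hc'0, sub_zero] at this
    exact this
  rw [← hc]
  exact Finset.sum_eq_zero fun z hz => by rw [hall z hz, zero_smul]

/-- the complex span of a rational subspace -/
noncomputable def UC {n : ℕ} (U : Submodule ℚ (Fin n → ℚ)) : Submodule ℂ (Fin n → ℂ) :=
  Submodule.span ℂ (cx '' (U : Set (Fin n → ℚ)))

theorem finrank_UC {n : ℕ} (U : Submodule ℚ (Fin n → ℚ)) : finrank ℂ (UC U) ≤ finrank ℚ U := by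
  classical
  let b := Module.finBasis ℚ U
  have h1 : UC U ≤ Submodule.span ℂ (Set.range fun i => cx ((b i : U) : Fin n → ℚ)) := by
    unfold UC
    rw [Submodule.span_le]
    rintro _ ⟨u, hu, rfl⟩
    have h2 : (⟨u, hu⟩ : U) = ∑ i, b.repr ⟨u, hu⟩ i • b i := (b.sum_repr _).symm
    have h3 : u = ∑ i, b.repr ⟨u, hu⟩ i • ((b i : U) : Fin n → ℚ) := by
      have h5 : u = ((∑ i, b.repr ⟨u, hu⟩ i • b i : U) : Fin n → ℚ) := congrArg (Subtype.val) h2
      rw [Submodule.coe_sum] at h5
      simpa only [Submodule.coe_smul] using h5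
    have h4 : cx u = ∑ i, ((b.repr ⟨u, hu⟩ i : ℚ) : ℂ) • cx ((b i : U) : Fin n → ℚ) := by
      conv_lhs => rw [h3]
      ext j
      simp [cx, Finset.sum_apply]
    rw [SetLike.mem_coe, h4]
    refine Submodule.sum_mem _ fun i _ => Submodule.smul_mem _ _ (Submodule.subset_span ⟨i, rfl⟩)
  calc finrank ℂ (UC U)
      ≤ finrank ℂ (Submodule.span ℂ (Set.range fun i => cx ((b i : U) : Fin n → ℚ))) :=
        Submodule.finrank_mono h1
    _ ≤ Fintype.card (Fin (finrank ℚ U)) := finrank_range_le_card _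
    _ = finrank ℚ U := by simp

/-- the intersection -/
noncomputable def T (r : ℕ) (U : Submodule ℚ (Fin (r + 1) → ℚ)) (A : Finset ℂ) :
    Submodule ℂ (Fin (r + 1) → ℂ) :=
  Submodule.span ℂ (vec r '' (A : Set ℂ)) ⊓ UC U

/-- the coordinatewise automorphism as an additive equivalence -/
noncomputable def ph (n : ℕ) (σ : ℂ ≃+* ℂ) : (Fin n → ℂ) ≃+ (Fin n → ℂ) :=
  AddEquiv.piCongrRight fun _ => σ.toAddEquiv

theorem ph_apply (n : ℕ) (σ : ℂ ≃+* ℂ) (x : Fin n → ℂ) (i : Fin n) : ph n σ x i = σ (x i) := rfl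

theorem ph_smul (n : ℕ) (σ : ℂ ≃+* ℂ) (c : ℂ) (x : Fin n → ℂ) : ph n σ (c • x) = σ c • ph n σ x := by
  ext i; simp [ph_apply]

theorem ph_span (n : ℕ) (σ : ℂ ≃+* ℂ) (s t : Set (Fin n → ℂ)) (h : ∀ x ∈ s, ph n σ x ∈ t)
    (x : Fin n → ℂ) (hx : x ∈ Submodule.span ℂ s) : ph n σ x ∈ Submodule.span ℂ t := by
  refine Submodule.span_induction (p := fun x _ => ph n σ x ∈ Submodule.span ℂ t) ?_ ?_ ?_ ?_ hx
  · intro x hx; exact Submodule.subset_span (h x hx)
  · simp
  · intro x y _ _ hx hy; rw [map_add]; exact Submodule.add_mem _ hx hy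
  · intro c x _ hx; rw [ph_smul]; exact Submodule.smul_mem _ _ hx

theorem ph_T (r : ℕ) (U : Submodule ℚ (Fin (r + 1) → ℚ)) (σ : ℂ ≃+* ℂ) (A A' : Finset ℂ)
    (h : A.image σ = A') (x : Fin (r + 1) → ℂ) (hx : x ∈ T r U A) : ph (r + 1) σ x ∈ T r U A' := by
  classical
  refine Submodule.mem_inf.mpr ⟨?_, ?_⟩
  · refine ph_span _ σ _ _ ?_ x (Submodule.mem_inf.mp hx).1
    rintro _ ⟨z, hz, rfl⟩
    refine ⟨σ z, ?_, ?_⟩
    · rw [← h]; exact Finset.mem_coe.mpr (Finset.mem_image_of_mem _ hz)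
    · ext i; simp [vec, ph_apply]
  · refine ph_span _ σ _ _ ?_ x (Submodule.mem_inf.mp hx).2
    rintro _ ⟨u, hu, rfl⟩
    refine ⟨u, hu, ?_⟩
    ext i; simp [cx, ph_apply]

theorem ph_symm (n : ℕ) (σ : ℂ ≃+* ℂ) (x : Fin n → ℂ) : (ph n σ).symm x = ph n σ.symm x := by
  rw [AddEquiv.symm_apply_eq]
  ext i; simp [ph_apply]

theorem finrank_T_eq (r : ℕ) (U : Submodule ℚ (Fin (r + 1) → ℚ)) (σ : ℂ ≃+* ℂ) (A A' : Finset ℂ)
    (h : A.image σ = A') : finrank ℂ (T r U A) = finrank ℂ (T r U A') := by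
  classical
  have h' : A'.image σ.symm = A := by
    rw [← h, Finset.image_image]
    have : (σ.symm : ℂ → ℂ) ∘ σ = id := by ext z; simp
    rw [this, Finset.image_id]
  let e : T r U A ≃+ T r U A' :=
    { toFun := fun x => ⟨ph (r + 1) σ x, ph_T r U σ A A' h x x.2⟩
      invFun := fun x => ⟨ph (r + 1) σ.symm x, ph_T r U σ.symm A' A h' x x.2⟩
      left_inv := by
        intro x
        apply Subtype.ext
        ext i
        simp [ph_apply]
      right_inv := by
        intro x
        apply Subtype.ext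
        ext i
        simp [ph_apply]
      map_add' := by
        intro x y
        apply Subtype.ext
        ext i
        simp [ph_apply] }
  have := rank_eq_of_equiv_equiv (R := ℂ) (R' := ℂ) (M := T r U A) (M₁ := T r U A')
    (σ : ℂ → ℂ) e σ.bijective (by
      intro c x
      apply Subtype.ext
      ext i
      simp [e, ph_apply])
  exact congrArg Cardinal.toNat this

/-- the main step -/
theorem step (G : ℤ[X]) (r : ℕ) (hH : Homogeneous G r) (U : Submodule ℚ (Fin (r + 1) → ℚ))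
    (B : Finset ℂ) (hB : ∀ z ∈ B, aeval z G = 0) (hc : B.card ≤ r + 1) (z : ℂ) (hz : z ∈ B)
    (hd : 1 ≤ finrank ℂ (T r U (B.erase z))) :
    finrank ℂ (T r U (B.erase z)) + 1 ≤ finrank ℂ (T r U B) := by
  classical
  by_contra hcon
  push Not at hcon
  have hsub : ∀ w, T r U (B.erase w) ≤ T r U B := by
    intro w
    refine inf_le_inf_right _ (Submodule.span_mono (Set.image_mono ?_))
    exact Finset.coe_subset.mpr (Finset.erase_subset _ _)
  have hdim : ∀ w ∈ B, finrank ℂ (T r U (B.erase w)) = finrank ℂ (T r U (B.erase z)) := by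
    intro w hw
    obtain ⟨σ, hσ⟩ := hH (B.erase w) (B.erase z) (fun x hx => hB x (Finset.mem_of_mem_erase hx))
      (fun x hx => hB x (Finset.mem_of_mem_erase hx))
      (by rw [Finset.card_erase_of_mem hw, Finset.card_erase_of_mem hz])
      (by rw [Finset.card_erase_of_mem hw]; omega)
    exact finrank_T_eq r U σ _ _ (by convert hσ)
  have heq : ∀ w ∈ B, T r U (B.erase w) = T r U B := by
    intro w hw
    refine Submodule.eq_of_le_of_finrank_le (hsub w) ?_
    rw [hdim w hw]
    omega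
  have hbot : T r U B = ⊥ := by
    rw [eq_bot_iff]
    intro x hx
    rw [Submodule.mem_bot]
    refine inter r B hc ⟨z, hz⟩ x fun w hw => ?_
    rw [← heq w hw] at hx
    exact (Submodule.mem_inf.mp hx).1
  rw [heq z hz, hbot] at hd
  simp at hd

theorem chain (G : ℤ[X]) (r : ℕ) (hH : Homogeneous G r) (U : Submodule ℚ (Fin (r + 1) → ℚ))
    (A : Finset ℂ) (hd : 1 ≤ finrank ℂ (T r U A)) (k : ℕ) : ∀ B : Finset ℂ, A ⊆ B →
    (∀ z ∈ B, aeval z G = 0) → B.card = A.card + k → B.card ≤ r + 1 →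
    finrank ℂ (T r U A) + k ≤ finrank ℂ (T r U B) := by
  classical
  induction k with
  | zero =>
    intro B hAB _ hc _
    have : A = B := Finset.eq_of_subset_of_card_le hAB (by omega)
    rw [this, add_zero]
  | succ k ih =>
    intro B hAB hB hc hr
    obtain ⟨z, hz, hzA⟩ : ∃ z ∈ B, z ∉ A := by
      by_contra hcon
      push Not at hcon
      have := Finset.card_le_card (show B ⊆ A from hcon)
      omega
    have h1 := ih (B.erase z) (fun x hx => Finset.mem_erase.mpr
      ⟨fun h => hzA (h ▸ hx), hAB hx⟩) (fun x hx => hB x (Finset.mem_of_mem_erase hx))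
      (by rw [Finset.card_erase_of_mem hz]; omega) (by rw [Finset.card_erase_of_mem hz]; omega)
    have h2 := step G r hH U B hB hr z hz (by omega)
    omega

theorem t : Pool.Agent.H88V.S_HS := by
  classical
  intro G r R hR hcard hH A U hA hAr
  change (r + 1) * finrank ℂ (T r U A) ≤ A.card * finrank ℚ U
  rcases Nat.eq_zero_or_pos (finrank ℂ (T r U A)) with h0 | h0
  · rw [h0]; simp
  have hRA : r + 1 ≤ (R ∪ A).card := hcard.trans (Finset.card_le_card Finset.subset_union_left)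
  obtain ⟨B, hAB, hBR, hBc⟩ := Finset.exists_subsuperset_card_eq (Finset.subset_union_right (s₁ := R))
    (by omega : A.card ≤ r + 1) hRA
  have h1 := chain G r hH U A h0 (r + 1 - A.card) B hAB (fun z hz => by
    rcases Finset.mem_union.mp (hBR hz) with h | h
    · exact hR z h
    · exact hA z h) (by omega) (by omega)
  have h2 : finrank ℂ (T r U B) ≤ finrank ℂ (UC U) := Submodule.finrank_mono inf_le_right
  have h3 := finrank_UC U
  have h4 : finrank ℚ U ≤ r + 1 := by
    have := Submodule.finrank_le U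
    simpa using this
  have h5 : finrank ℂ (T r U A) + (r + 1) ≤ finrank ℚ U + A.card := by omega
  obtain ⟨x, hx⟩ := Nat.exists_eq_add_of_le (show A.card ≤ r + 1 by omega)
  obtain ⟨y, hy⟩ := Nat.exists_eq_add_of_le h4
  nlinarith [Nat.zero_le (x * y)]

end Pool.Agent.H88V.HS
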