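import Mathlib
import Pool.Agent.H88V.Stm

set_option autoImplicit false

namespace Pool.Agent.H88V.PACK

open MeasureTheory
open scoped Pointwise

theorem vol_ball {n : ℕ} (p : Seminorm ℝ (Fin n → ℝ)) (c : Fin n → ℝ) (r : ℝ) (hr : 0 < r) :
    volume (p.ball c r) = ENNReal.ofReal (r ^ n) * volume (p.ball 0 1) := by
  have h1 : p.ball c r = c +ᵥ (r • p.ball 0 1) := by
    rw [Seminorm.smul_ball_zero hr.ne', Seminorm.vadd_ball]
    simp [abs_of_pos hr]
  rw [h1, measure_vadd, Measure.addHaar_smul]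
  simp [abs_of_pos hr]

theorem t : Pool.Agent.H88V.S_PACK := by
  intro n p hp R hR s hs E hE hsep
  have hopen : ∀ c r, IsOpen (p.ball c r) := by
    intro c r
    have : p.ball c r = {y | p (y - c) < r} := rfl
    rw [this]
    exact isOpen_lt (hp.comp (continuous_id.sub continuous_const)) continuous_const
  have hne : (p.ball 0 1).Nonempty := ⟨0, by simp⟩
  have hpos : 0 < volume (p.ball (0 : Fin n → ℝ) 1) := (hopen 0 1).measure_pos _ hne
  have hbd : Bornology.IsBounded (p.ball (0 : Fin n → ℝ) 1) := by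
    refine (Metric.isBounded_closedBall (x := (0 : Fin n → ℝ)) (r := |R|)).subset ?_
    intro x hx
    rw [Seminorm.mem_ball_zero] at hx
    rw [mem_closedBall_zero_iff]
    have h0 := apply_nonneg p x
    calc ‖x‖ ≤ R * p x := hR x
      _ ≤ |R| * p x := mul_le_mul_of_nonneg_right (le_abs_self R) h0
      _ ≤ |R| * 1 := mul_le_mul_of_nonneg_left hx.le (abs_nonneg R)
      _ = |R| := mul_one _
  have hfin : volume (p.ball (0 : Fin n → ℝ) 1) ≠ ⊤ := hbd.measure_lt_top.ne
  have hs2 : 0 < s / 2 := by positivity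
  have hs3 : 0 < 1 + s / 2 := by positivity
  have D : Set.Pairwise (E : Set (Fin n → ℝ)) (Function.onFun Disjoint fun c => p.ball c (s / 2)) := by
    intro c hc d hd hcd
    rw [Function.onFun, Set.disjoint_left]
    intro z hz hz'
    rw [Seminorm.mem_ball] at hz hz'
    have h1 := hsep c hc d hd hcd
    have h2 : p (c - d) ≤ p (z - d) + p (z - c) := by
      have h3 : c - d = (z - d) - (z - c) := by abel
      rw [h3]
      exact map_sub_le_add p _ _
    linarith
  have A : (⋃ c ∈ E, p.ball c (s / 2)) ⊆ p.ball 0 (1 + s / 2) := by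
    refine Set.iUnion₂_subset fun c hc z hz => ?_
    rw [Seminorm.mem_ball] at hz
    rw [Seminorm.mem_ball_zero]
    have h1 := hE c hc
    have h2 : p z ≤ p c + p (z - c) := by
      have h3 : z = c + (z - c) := by abel
      calc p z = p (c + (z - c)) := by rw [← h3]
        _ ≤ _ := map_add_le_add p _ _
    linarith
  have I : (E.card : ENNReal) * ENNReal.ofReal ((s / 2) ^ n) * volume (p.ball (0 : Fin n → ℝ) 1) ≤
      ENNReal.ofReal ((1 + s / 2) ^ n) * volume (p.ball (0 : Fin n → ℝ) 1) := by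
    calc _ = volume (⋃ c ∈ E, p.ball c (s / 2)) := by
          rw [measure_biUnion_finset D fun c _ => (hopen c _).measurableSet]
          simp only [vol_ball p _ _ hs2, Finset.sum_const, nsmul_eq_mul, mul_assoc]
      _ ≤ volume (p.ball (0 : Fin n → ℝ) (1 + s / 2)) := measure_mono A
      _ = _ := vol_ball p _ _ hs3
  have J : (E.card : ENNReal) * ENNReal.ofReal ((s / 2) ^ n) ≤ ENNReal.ofReal ((1 + s / 2) ^ n) :=
    (ENNReal.mul_le_mul_iff_left hpos.ne' hfin).1 I
  have K := ENNReal.toReal_le_of_le_ofReal (pow_nonneg hs3.le n) J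
  rw [ENNReal.toReal_mul, ENNReal.toReal_natCast, ENNReal.toReal_ofReal (pow_nonneg hs2.le n)] at K
  have h5 : (1 + 2 / s) ^ n * (s / 2) ^ n = (1 + s / 2) ^ n := by
    rw [← mul_pow]
    congr 1
    field_simp
    ring
  rw [← h5] at K
  exact le_of_mul_le_mul_right K (pow_pos hs2 n)

end Pool.Agent.H88V.PACK
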