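import Mathlib
import Pool.Agent.H88V.Stm

set_option autoImplicit false

namespace Pool.Agent.H88V.T1

open Polynomial Finset Module NumberField
open scoped IntermediateField
open Pool.Agent.H990R4.VJ (mm one_le_mm mm_eq coeff_le)
open Pool.Agent.W226.VQ (av av_nonneg av_le_one av_pos av_eq_one prod_formula)
open Pool.Agent.R337.VG (Viol field_count small finrank_adjoin_root one_add_le)

/-- the exceptional points in fields of small discriminant -/
theorem t : Pool.Agent.H88V.S_T1 := by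
  classical
  intro r q hr hq G hG hsep h1 h2 S hS ε K₁ τ δ φ C₀ hε hK₁ hτ0 hδ hφ hC₀ hFF
  obtain ⟨C₁, M₀, hC₁, hM₀, hfc⟩ := field_count r q (by omega) hq G hG hsep h1 h2 S hS ε K₁ hε hK₁
  obtain ⟨N, hN⟩ := small r M₀
  refine ⟨N + C₀ * C₁ * (1 + 1 / δ), by positivity, ?_⟩
  intro L hL E D hE
  have hE1 : ∀ x ∈ E, 0 ≤ D x := fun x hx => (hE x hx).1
  have hE1' : ∀ x ∈ E, D x ≤ τ * L := fun x hx => (hE x hx).2.1
  have hE2 : ∀ x ∈ E, ∃ _ : NumberField ℚ⟮x⟯, |(discr ℚ⟮x⟯ : ℝ)| = Real.exp (D x) :=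
    fun x hx => (hE x hx).2.2.1
  have hE3 : ∀ x ∈ E, ∃ f, Viol r q G S ε K₁ L (D x) x f := fun x hx => (hE x hx).2.2.2
  choose! F hF using hE3
  set E₀ := E.filter fun x => Real.log (mm (F x)) < M₀ with hE₀
  set E₁ := E.filter fun x => ¬ Real.log (mm (F x)) < M₀ with hE₁
  have hc : E.card = E₀.card + E₁.card := by
    rw [hE₀, hE₁, Finset.card_filter_add_card_filter_not]
  have hb0 : E₀.card ≤ N := by
    refine hN E₀ fun x hx => ?_
    obtain ⟨hx1, hx2⟩ := Finset.mem_filter.1 hx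
    obtain ⟨a1, a2, a3, a4, a5, a6⟩ := hF x hx1
    exact ⟨F x, a1.ne_zero, a2, a3, hx2.le⟩
  have hexp : (1 : ℝ) ≤ Real.exp ((φ * τ + δ) * L) := Real.one_le_exp (by positivity)
  -- small discriminant
  have hb1 : (E₁.card : ℝ) ≤ C₀ * C₁ * (1 + 1 / δ) * Real.exp ((φ * τ + δ) * L) := by
    set 𝒦 := E₁.image fun x => ℚ⟮x⟯ with h𝒦
    have hY1 : 1 ≤ Real.exp (τ * L) := Real.one_le_exp (by positivity)
    have hk1 := hFF (Real.exp (τ * L)) hY1 𝒦 ?_
    · have hk2 : ∀ K ∈ 𝒦, ((E₁.filter fun x => ℚ⟮x⟯ = K).card : ℝ) ≤ C₁ * (1 + L) := by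
        intro K hK
        obtain ⟨x₁, hx₁, rfl⟩ := Finset.mem_image.1 hK
        obtain ⟨hx3, hx4⟩ := Finset.mem_filter.1 hx₁
        obtain ⟨a1, a2, a3, a4, a5, a6⟩ := hF x₁ hx3
        obtain ⟨hfd, hfr⟩ := finrank_adjoin_root r (by omega) x₁ (F x₁) a1 a2 a3
        refine hfc ℚ⟮x₁⟯ hfr L hL _ fun x hx => ?_
        obtain ⟨hx5, hx6⟩ := Finset.mem_filter.1 hx
        obtain ⟨hx9, hx10⟩ := Finset.mem_filter.1 hx5
        obtain ⟨b1, b2, b3, b4, b5, b6⟩ := hF x hx9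
        refine ⟨F x, ⟨?_, b1, b2, b3⟩, not_lt.1 hx10, b4, b5, ?_⟩
        · rw [← hx6]; exact IntermediateField.mem_adjoin_simple_self ℚ x
        · refine le_trans ?_ b6
          refine le_mul_of_one_le_right ?_ (Real.one_le_exp (hE1 x hx9))
          exact mul_nonneg (abs_nonneg _) (Finset.prod_nonneg fun p _ => av_nonneg p _)
      have hk3 : (E₁.card : ℝ) ≤ 𝒦.card * (C₁ * (1 + L)) := by
        rw [Finset.card_eq_sum_card_image (fun x => ℚ⟮x⟯) E₁]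
        push_cast
        calc ∑ K ∈ 𝒦, ((E₁.filter fun x => ℚ⟮x⟯ = K).card : ℝ)
            ≤ ∑ K ∈ 𝒦, C₁ * (1 + L) := Finset.sum_le_sum hk2
          _ = _ := by rw [Finset.sum_const, nsmul_eq_mul]
      have hk4 : Real.exp (τ * L) ^ φ = Real.exp (φ * τ * L) := by
        rw [← Real.exp_mul]; congr 1; ring
      rw [hk4] at hk1
      have hk5 := one_add_le δ L hδ hL
      calc (E₁.card : ℝ) ≤ 𝒦.card * (C₁ * (1 + L)) := hk3
        _ ≤ (C₀ * Real.exp (φ * τ * L)) * (C₁ * ((1 + 1 / δ) * Real.exp (δ * L))) := by gcongr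
        _ = _ := by
          rw [show (φ * τ + δ) * L = φ * τ * L + δ * L by ring, Real.exp_add]; ring
    · intro K hK
      obtain ⟨x₁, hx₁, rfl⟩ := Finset.mem_image.1 hK
      obtain ⟨hx3, hx4⟩ := Finset.mem_filter.1 hx₁
      obtain ⟨a1, a2, a3, a4, a5, a6⟩ := hF x₁ hx3
      obtain ⟨hnf, hdisc⟩ := hE2 x₁ hx3
      obtain ⟨hfd, hfr⟩ := finrank_adjoin_root r (by omega) x₁ (F x₁) a1 a2 a3
      refine ⟨hnf, hfr, ?_⟩
      rw [hdisc]
      exact Real.exp_le_exp.2 (hE1' x₁ hx3)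
  rw [hc]
  push_cast
  have hb0' : (E₀.card : ℝ) ≤ N * Real.exp ((φ * τ + δ) * L) := by
    have h3 : (E₀.card : ℝ) ≤ N := by exact_mod_cast hb0
    have h4 : (N : ℝ) ≤ N * Real.exp ((φ * τ + δ) * L) :=
      le_mul_of_one_le_right (Nat.cast_nonneg _) hexp
    linarith
  calc (E₀.card : ℝ) + E₁.card
      ≤ N * Real.exp ((φ * τ + δ) * L) + C₀ * C₁ * (1 + 1 / δ) * Real.exp ((φ * τ + δ) * L) := by
        gcongr
    _ = _ := by ring

end Pool.Agent.H88V.T1
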