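import Pool.Agent.H88V.Stm

/-!
# T2: the exceptional polynomials for fields of large discriminant (project VS)
-/

set_option autoImplicit false

namespace Pool.Agent.H88V.T2

open Polynomial Finset Module
open Pool.Agent.H990R4.VJ (mm coeff_le one_le_mm)
open Pool.Agent.W226.VQ (av av_nonneg av_le_one av_pos av_eq_one)
open Pool.Agent.R337.VG (mm_le prim_at)

/-- selection of the large values -/
lemma sel (r q : ℕ) (hq : r + 1 ≤ q) (y : Fin q → ℝ) (C₁ : ℝ) (hC : 0 ≤ C₁)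
    (h : ∀ T : Finset (Fin q), r < T.card → ∃ j ∈ T, y j ≤ C₁) :
    ∃ β : Fin (r + 1) → Fin q, Function.Injective β ∧ ∑ j, y j ≤ ∑ a, y (β a) + q * C₁ := by
  classical
  set T := Finset.univ.filter (fun j => C₁ < y j) with hT
  have h1 : T.card ≤ r := by
    by_contra hcon
    push Not at hcon
    obtain ⟨j, hj, hj2⟩ := h T hcon
    have := (Finset.mem_filter.1 hj).2
    linarith
  obtain ⟨U, hTU, -, hU⟩ := Finset.exists_subsuperset_card_eq (Finset.subset_univ T) (n := r + 1)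
    (by omega) (by rw [Finset.card_univ, Fintype.card_fin]; exact hq)
  refine ⟨fun a => U.orderEmbOfFin hU a, (U.orderEmbOfFin hU).injective, ?_⟩
  have h2 : ∑ j ∈ U, y j = ∑ a, y (U.orderEmbOfFin hU a) := by
    conv_lhs => rw [← Finset.map_orderEmbOfFin_univ U hU, Finset.sum_map]
    rfl
  rw [← h2, ← Finset.sum_sdiff (Finset.subset_univ U)]
  have h3 : ∑ j ∈ Finset.univ \ U, y j ≤ q * C₁ := by
    calc _ ≤ ∑ j ∈ Finset.univ \ U, C₁ := Finset.sum_le_sum (fun j hj => by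
            by_contra hcon
            push Not at hcon
            exact (Finset.mem_sdiff.1 hj).2 (hTU (Finset.mem_filter.2 ⟨Finset.mem_univ _, hcon⟩)))
      _ ≤ q * C₁ := by
        rw [Finset.sum_const, nsmul_eq_mul]
        apply mul_le_mul_of_nonneg_right _ hC
        have := Finset.card_le_univ (Finset.univ \ U)
        rw [Fintype.card_fin] at this
        exact_mod_cast this
  linarith

/-- the labels lose little -/
lemma lab_sum {ι : Type*} (I : Finset ι) (y : ι → ℝ) (a : ι → ℕ) (lam : ℝ) (N₀ : ℕ) (hlam : 0 < lam)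
    (ha : ∀ i ∈ I, a i = min N₀ ⌊y i / lam⌋₊) (A : ℝ) (h1 : A ≤ N₀ * lam)
    (h2 : A ≤ ∑ i ∈ I, y i - I.card * lam) : A ≤ ∑ i ∈ I, lam * (a i : ℝ) := by
  by_cases h : ∃ i ∈ I, N₀ ≤ ⌊y i / lam⌋₊
  · obtain ⟨i, hi, h3⟩ := h
    have h4 := Finset.single_le_sum (f := fun i => lam * (a i : ℝ))
      (fun j _ => mul_nonneg hlam.le (Nat.cast_nonneg _)) hi
    rw [ha i hi, min_eq_left h3] at h4
    linarith
  · push Not at h
    refine h2.trans ?_
    have h4 : ∀ i ∈ I, y i - lam ≤ lam * (a i : ℝ) := by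
      intro i hi
      rw [ha i hi, min_eq_right (h i hi).le]
      have := Nat.lt_floor_add_one (y i / lam)
      rw [div_lt_iff₀ hlam] at this
      linarith
    have h5 := Finset.sum_le_sum h4
    rw [Finset.sum_sub_distrib, Finset.sum_const, nsmul_eq_mul] at h5
    exact h5

/-- the packing bound for polynomials -/
lemma pack (hP : S_PACK) (r q : ℕ) (Y s : ℝ) (hY : 0 < Y) (hs : 0 < s) (c : Fin q → ℝ)
    (hc : ∀ j, 0 < c j) (α : Fin q → ℂ) (K : Finset ℤ[X])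
    (h1 : ∀ f ∈ K, f.natDegree ≤ r ∧ (∀ i : ℕ, |((f.coeff i : ℤ) : ℝ)| ≤ Y) ∧
      ∀ j, ‖aeval (α j) f‖ ≤ c j)
    (h2 : ∀ f ∈ K, ∀ g ∈ K, f ≠ g → (∀ i : ℕ, |(((f - g).coeff i : ℤ) : ℝ)| ≤ s * Y) →
      (∀ j, ‖aeval (α j) (f - g)‖ ≤ s * c j) → False) :
    (K.card : ℝ) ≤ (1 + 2 / s) ^ (r + 1) := by
  classical
  let Φ : (Fin (r + 1) → ℝ) →ₗ[ℝ] (Fin (r + 1) → ℝ) × (Fin q → ℂ) :=
    LinearMap.prod (Y⁻¹ • LinearMap.id) (LinearMap.pi fun j => ((c j)⁻¹ : ℝ) •
      ∑ i : Fin (r + 1), (LinearMap.proj i : (Fin (r + 1) → ℝ) →ₗ[ℝ] ℝ).smulRight (α j ^ (i : ℕ)))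
  have hΦ1 : ∀ x, (Φ x).1 = Y⁻¹ • x := fun x => rfl
  have hΦ2 : ∀ x j, (Φ x).2 j = ((c j)⁻¹ : ℝ) • ∑ i : Fin (r + 1), x i • α j ^ (i : ℕ) := by
    intro x j
    simp [Φ, LinearMap.sum_apply]
  set P : Seminorm ℝ (Fin (r + 1) → ℝ) := (normSeminorm ℝ _).comp Φ with hPd
  have hPx : ∀ x, P x = ‖Φ x‖ := fun x => rfl
  have hPc : Continuous P := by
    have : Continuous fun x => ‖Φ x‖ := (LinearMap.continuous_of_finiteDimensional Φ).norm
    exact this
  have hR : ∀ x, ‖x‖ ≤ Y * P x := by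
    intro x
    have h3 : ‖(Φ x).1‖ ≤ ‖Φ x‖ := norm_fst_le _
    rw [hΦ1, norm_smul, Real.norm_eq_abs, abs_of_pos (inv_pos.2 hY)] at h3
    rw [hPx]
    have h4 := mul_le_mul_of_nonneg_left h3 hY.le
    rwa [← mul_assoc, mul_inv_cancel₀ hY.ne', one_mul] at h4
  let vf : ℤ[X] → Fin (r + 1) → ℝ := fun f i => ((f.coeff i : ℤ) : ℝ)
  have hev : ∀ f : ℤ[X], f.natDegree ≤ r → ∀ x : ℂ,
      ∑ i : Fin (r + 1), vf f i • x ^ (i : ℕ) = aeval x f := by
    intro f hf x
    rw [aeval_eq_sum_range' (Nat.lt_succ_of_le hf), Finset.sum_range]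
    apply Finset.sum_congr rfl
    intro i _
    simp [vf]
  have hPle : ∀ f : ℤ[X], f.natDegree ≤ r → ∀ t : ℝ, 0 ≤ t → (P (vf f) ≤ t ↔
      (∀ i : ℕ, |((f.coeff i : ℤ) : ℝ)| ≤ t * Y) ∧ ∀ j, ‖aeval (α j) f‖ ≤ t * c j) := by
    intro f hf t ht
    rw [hPx, Prod.norm_def, max_le_iff, hΦ1, pi_norm_le_iff_of_nonneg ht, pi_norm_le_iff_of_nonneg ht]
    have h3 : ∀ i : Fin (r + 1), ‖(Y⁻¹ • vf f) i‖ ≤ t ↔ |((f.coeff i : ℤ) : ℝ)| ≤ t * Y := by
      intro i
      rw [Pi.smul_apply, norm_smul, Real.norm_eq_abs, Real.norm_eq_abs, abs_of_pos (inv_pos.2 hY),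
        inv_mul_le_iff₀ hY, mul_comm Y t]
    have h4 : ∀ j : Fin q, ‖(Φ (vf f)).2 j‖ ≤ t ↔ ‖aeval (α j) f‖ ≤ t * c j := by
      intro j
      rw [hΦ2, hev f hf, norm_smul, Real.norm_eq_abs, abs_of_pos (inv_pos.2 (hc j)),
        inv_mul_le_iff₀ (hc j), mul_comm (c j) t]
    constructor
    · rintro ⟨h5, h6⟩
      refine ⟨fun i => ?_, fun j => (h4 j).1 (h6 j)⟩
      by_cases hi : i < r + 1
      · exact (h3 ⟨i, hi⟩).1 (h5 ⟨i, hi⟩)
      · rw [coeff_eq_zero_of_natDegree_lt (by omega)]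
        simp only [Int.cast_zero, abs_zero]
        positivity
    · rintro ⟨h5, h6⟩
      exact ⟨fun i => (h3 i).2 (h5 i), fun j => (h4 j).2 (h6 j)⟩
  have hinj : Set.InjOn vf (K : Set ℤ[X]) := by
    intro f hf g hg hfg
    ext i
    by_cases hi : i < r + 1
    · have := congrFun hfg ⟨i, hi⟩
      simp only [vf] at this
      exact_mod_cast this
    · rw [coeff_eq_zero_of_natDegree_lt (by have := (h1 f hf).1; omega),
        coeff_eq_zero_of_natDegree_lt (by have := (h1 g hg).1; omega)]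
  have h3 := hP (r + 1) P hPc Y hR s hs (K.image vf) (by
    intro x hx
    obtain ⟨f, hf, rfl⟩ := Finset.mem_image.1 hx
    obtain ⟨h4, h5, h6⟩ := h1 f hf
    refine (hPle f h4 1 zero_le_one).2 ⟨fun i => ?_, fun j => ?_⟩
    · rw [one_mul]; exact h5 i
    · rw [one_mul]; exact h6 j) (by
    intro x hx y hy hxy
    obtain ⟨f, hf, rfl⟩ := Finset.mem_image.1 hx
    obtain ⟨g, hg, rfl⟩ := Finset.mem_image.1 hy
    have hfg : f ≠ g := fun h => hxy (by rw [h])
    by_contra hcon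
    push Not at hcon
    have h4 : vf f - vf g = vf (f - g) := by
      ext i
      simp [vf]
    rw [h4] at hcon
    have h5 : (f - g).natDegree ≤ r := (natDegree_sub_le f g).trans
      (max_le (h1 f hf).1 (h1 g hg).1)
    obtain ⟨h6, h7⟩ := (hPle (f - g) h5 s hs.le).1 hcon.le
    exact h2 f hf g hg hfg h6 h7)
  rwa [Finset.card_image_of_injOn hinj] at h3

/-- one class -/
lemma one_class (hP : S_PACK) (r q : ℕ) (G : ℤ[X]) (S : Finset ℕ)
    (ν : Option ℕ → ℤ[X] → Fin q → ℝ) (W : ℝ) (hD : Data r q G S ν W) (ε' C : ℝ) (hε' : 0 < ε')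
    (hsub : ∀ h : ℤ[X], h ≠ 0 → h.natDegree ≤ r → ∀ Y : ℝ,
      (∀ i : ℕ, |((h.coeff i : ℤ) : ℝ)| ≤ Y) → ∀ β : Option ℕ → Fin (r + 1) → Fin q,
      (∀ v, Function.Injective (β v)) →
      -(ε' * Real.log Y) - C ≤ ∑ a, Real.log (ν none h (β none a)) +
        ∑ p ∈ S, ∑ a, Real.log (ν (some p) h (β (some p) a)))
    (Y lam : ℝ) (hY : 0 < Y) (a : Option ℕ → Fin q → ℕ) (β : Option ℕ → Fin (r + 1) → Fin q)
    (hβ : ∀ v, Function.Injective (β v)) (A : ℝ)
    (hA : A ≤ ∑ i, lam * (a none (β none i) : ℝ) +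
      ∑ p ∈ S, ∑ i, lam * (a (some p) (β (some p) i) : ℝ))
    (K : Finset ℤ[X]) (hK : ∀ f ∈ K, f.natDegree ≤ r ∧ (∀ i : ℕ, |((f.coeff i : ℤ) : ℝ)| ≤ Y) ∧
      (∀ j, ν none f j ≤ Real.exp W * Y * Real.exp (-(lam * (a none j : ℝ)))) ∧
      ∀ p ∈ S, ∀ j, ν (some p) f j ≤ Real.exp W * Real.exp (-(lam * (a (some p) j : ℝ)))) :
    (K.card : ℝ) ≤ 3 ^ (r + 1) * Real.exp (max 0 ((r + 1) * Real.log Y -
      (r + 1) * (A - (C + (r + 1) * ((S.card : ℝ) + 1) * W) - 1) / (r + 1 + ε'))) := by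
  obtain ⟨α, hα⟩ := hD.arch
  set C₄ := C + (r + 1) * ((S.card : ℝ) + 1) * W with hC₄
  have hr0 : (0 : ℝ) < (r : ℝ) + 1 + ε' := by positivity
  obtain ⟨ls, hls⟩ : ∃ ls : ℝ, ls = (A - C₄ - 1) / (r + 1 + ε') - Real.log Y := ⟨_, rfl⟩
  have hlsY : ((r : ℝ) + 1 + ε') * (ls + Real.log Y) = A - C₄ - 1 := by
    rw [hls]
    field_simp
    ring
  have h1 := pack hP r q Y (Real.exp ls) hY (Real.exp_pos _)
    (fun j => Real.exp W * Y * Real.exp (-(lam * (a none j : ℝ)))) (fun j => by positivity) α K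
    (fun f hf => ⟨(hK f hf).1, (hK f hf).2.1, fun j => by
      rw [← hα]
      exact (hK f hf).2.2.1 j⟩) (by
    intro f hf g hg hfg h2 h3
    have h0 : f - g ≠ 0 := sub_ne_zero.2 hfg
    have hdeg : (f - g).natDegree ≤ r := (natDegree_sub_le f g).trans
      (max_le (hK f hf).1 (hK g hg).1)
    have h4 := hsub (f - g) h0 hdeg _ h2 β hβ
    have h5 : ∀ i, Real.log (ν none (f - g) (β none i)) ≤ (ls + Real.log Y + W) -
        lam * (a none (β none i) : ℝ) := by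
      intro i
      have h6 := h3 (β none i)
      rw [← hα] at h6
      have h7 := Real.log_le_log (hD.pos none (f - g) (β none i) (fun p hp => by simp at hp) h0 hdeg) h6
      rw [Real.log_mul (Real.exp_pos _).ne' (by positivity), Real.log_mul (by positivity)
        (Real.exp_pos _).ne', Real.log_mul (Real.exp_pos _).ne' hY.ne', Real.log_exp, Real.log_exp,
        Real.log_exp] at h7
      linarith
    have h8 : ∀ p ∈ S, ∀ i, Real.log (ν (some p) (f - g) (β (some p) i)) ≤ W -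
        lam * (a (some p) (β (some p) i) : ℝ) := by
      intro p hp i
      have h6 : ν (some p) (f - g) (β (some p) i) ≤ Real.exp W *
          Real.exp (-(lam * (a (some p) (β (some p) i) : ℝ))) :=
        (hD.ultra p hp f g _).trans (max_le ((hK f hf).2.2.2 p hp _) ((hK g hg).2.2.2 p hp _))
      have h7 := Real.log_le_log (hD.pos (some p) (f - g) (β (some p) i)
        (fun p' hp' => by rw [← Option.some.inj hp']; exact hp) h0 hdeg) h6
      rw [Real.log_mul (Real.exp_pos _).ne' (Real.exp_pos _).ne', Real.log_exp, Real.log_exp] at h7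
      linarith
    have h9 := Finset.sum_le_sum fun i (_ : i ∈ (Finset.univ : Finset (Fin (r + 1)))) => h5 i
    have h10 := Finset.sum_le_sum fun p hp => Finset.sum_le_sum
      fun i (_ : i ∈ (Finset.univ : Finset (Fin (r + 1)))) => h8 p hp i
    rw [Finset.sum_sub_distrib, Finset.sum_const, nsmul_eq_mul, Finset.card_univ,
      Fintype.card_fin] at h9
    have h11 : ∑ p ∈ S, ∑ i : Fin (r + 1), (W - lam * (a (some p) (β (some p) i) : ℝ)) =
        (S.card : ℝ) * (((r + 1 : ℕ) : ℝ) * W) - ∑ p ∈ S, ∑ i : Fin (r + 1),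
          lam * (a (some p) (β (some p) i) : ℝ) := by
      rw [← nsmul_eq_mul, ← Finset.sum_const, ← Finset.sum_sub_distrib]
      apply Finset.sum_congr rfl
      intro p _
      rw [Finset.sum_sub_distrib, Finset.sum_const, nsmul_eq_mul, Finset.card_univ,
        Fintype.card_fin]
    rw [h11] at h10
    have h12 : Real.log (Real.exp ls * Y) = ls + Real.log Y := by
      rw [Real.log_mul (Real.exp_pos _).ne' hY.ne', Real.log_exp]
    rw [h12] at h4
    push_cast at h9 h10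
    have h13 : ((r : ℝ) + 1 + ε') * (ls + Real.log Y) =
      (r + 1) * (ls + Real.log Y) + ε' * (ls + Real.log Y) := by ring
    have h14 : C₄ = C + ((r : ℝ) + 1) * W + (S.card : ℝ) * ((r + 1) * W) := by
      rw [hC₄]; ring
    linarith)
  have h15 : (r + 1) * Real.log Y - (r + 1) * (A - C₄ - 1) / (r + 1 + ε') = (r + 1) * (-ls) := by
    rw [hls]
    ring
  rw [h15]
  refine h1.trans ?_
  have h16 : 1 + 2 / Real.exp ls ≤ 3 * Real.exp (max 0 (-ls)) := by
    have h17 : 1 ≤ Real.exp (max 0 (-ls)) := Real.one_le_exp (le_max_left _ _)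
    have h18 : (Real.exp ls)⁻¹ ≤ Real.exp (max 0 (-ls)) := by
      rw [← Real.exp_neg]
      exact Real.exp_le_exp.2 (le_max_right _ _)
    rw [div_eq_mul_inv]
    linarith
  calc (1 + 2 / Real.exp ls) ^ (r + 1) ≤ (3 * Real.exp (max 0 (-ls))) ^ (r + 1) := by
        apply pow_le_pow_left₀ _ h16
        positivity
    _ = 3 ^ (r + 1) * Real.exp (max 0 (-ls)) ^ (r + 1) := mul_pow _ _ _
    _ = 3 ^ (r + 1) * Real.exp (max 0 ((r + 1) * (-ls))) := by
        rw [← Real.exp_nat_mul]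
        congr 2
        have h19 : (0 : ℝ) ≤ (r : ℝ) + 1 := by positivity
        push_cast
        rw [← mul_zero ((r : ℝ) + 1), ← mul_max_of_nonneg _ _ h19, mul_zero]

/-- the exponents -/
lemma expo_ineq (r M ε τ ε' L x₀ lam C₃ C₄ A lY : ℝ) (hr : 2 ≤ r) (hε : 0 < ε) (hτ : 0 ≤ τ)
    (hε' : 0 < ε') (hL : 0 ≤ L) (hx0 : 0 ≤ x₀) (hxL : x₀ ≤ L) (hM : 0 ≤ M) (hlam : 0 ≤ lam)
    (hC₃ : 0 ≤ C₃) (hC₄ : 0 ≤ C₄) (hA : A = (2 + ε) * x₀ + τ * L - C₃ - M * lam)
    (hY : lY = r * Real.log 2 + x₀ + lam) :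
    (r + 1) * lY - (r + 1) * (A - C₄ - 1) / (r + 1 + ε') ≤ max 0 (r - 1 - ε - τ) * L +
      (r + 1 + M) * lam + ε' * (2 + ε + τ) * L + ((r + 1) * (r * Real.log 2) + C₃ + C₄ + 1) := by
  have hd : 0 < r + 1 + ε' := by linarith
  have h1 : (r + 1) * (A - C₄ - 1) / (r + 1 + ε') = (A - C₄ - 1) - ε' * ((A - C₄ - 1) / (r + 1 + ε')) := by
    field_simp
    ring
  have hQ : 0 ≤ (2 + ε) * x₀ + τ * L := by positivity
  have h2 : (A - C₄ - 1) / (r + 1 + ε') ≤ (2 + ε + τ) * L := by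
    rw [div_le_iff₀ hd]
    have h3 : A - C₄ - 1 ≤ (2 + ε) * x₀ + τ * L := by
      have := mul_nonneg hM hlam
      linarith
    have h4 : (2 + ε) * x₀ + τ * L ≤ (2 + ε + τ) * L := by nlinarith
    have h5 : 0 ≤ (2 + ε + τ) * L := by positivity
    nlinarith
  have h3 : (r - 1 - ε) * x₀ - τ * L ≤ max 0 (r - 1 - ε - τ) * L := by
    rcases le_total 0 (r - 1 - ε) with h | h
    · have h4 : (r - 1 - ε) * x₀ ≤ (r - 1 - ε) * L := mul_le_mul_of_nonneg_left hxL h
      have h5 : (r - 1 - ε - τ) * L ≤ max 0 (r - 1 - ε - τ) * L :=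
        mul_le_mul_of_nonneg_right (le_max_right _ _) hL
      linarith
    · have h4 : (r - 1 - ε) * x₀ ≤ 0 := mul_nonpos_of_nonpos_of_nonneg h hx0
      have h5 : 0 ≤ max 0 (r - 1 - ε - τ) * L := mul_nonneg (le_max_left _ _) hL
      have h6 : 0 ≤ τ * L := mul_nonneg hτ hL
      linarith
  have h4 : ε' * ((A - C₄ - 1) / (r + 1 + ε')) ≤ ε' * ((2 + ε + τ) * L) :=
    mul_le_mul_of_nonneg_left h2 hε'.le
  rw [h1, hY]
  have h5 : (r + 1) * (r * Real.log 2 + x₀ + lam) - (A - C₄ - 1 - ε' * ((A - C₄ - 1) / (r + 1 + ε'))) =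
      ((r - 1 - ε) * x₀ - τ * L) + (r + 1 + M) * lam + ε' * ((A - C₄ - 1) / (r + 1 + ε')) +
        ((r + 1) * (r * Real.log 2) + C₃ + C₄ + 1) := by
    rw [hA]
    ring
  rw [h5]
  linarith

/-- normalised logarithms of the values -/
noncomputable def yy {q : ℕ} (r : ℕ) (ν : Option ℕ → ℤ[X] → Fin q → ℝ) (W : ℝ) (v : Option ℕ) (f : ℤ[X])
    (j : Fin q) : ℝ :=
  W + v.elim (Real.log (2 ^ r * mm f)) (fun _ => 0) - Real.log (ν v f j)

lemma log_Y (r : ℕ) {f : ℤ[X]} (hf : f ≠ 0) :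
    Real.log (2 ^ r * mm f) = r * Real.log 2 + Real.log (mm f) := by
  have := one_le_mm hf
  rw [Real.log_mul (by positivity) (by linarith), Real.log_pow]

/-- the values at one place -/
lemma place (r q : ℕ) (G : ℤ[X]) (S : Finset ℕ) (hS : ∀ p ∈ S, p.Prime) (hr : 1 ≤ r) (hq : 1 ≤ q)
    (ν : Option ℕ → ℤ[X] → Fin q → ℝ) (W : ℝ) (hD : Data r q G S ν W) (f : ℤ[X])
    (hf : Irreducible f) (hdeg : f.natDegree = r) (hR : resultant f G r q ≠ 0) :
    (∀ v, (∀ p, v = some p → p ∈ S) → ∀ T : Finset (Fin q), r < T.card →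
      ∃ j ∈ T, yy r ν W v f j ≤ 2 * W + r * Real.log 2 + Real.log (r + 1) + 1) ∧
    q * Real.log (mm f) - Real.log |((resultant f G r q : ℤ) : ℝ)| ≤ ∑ j, yy r ν W none f j ∧
    ∀ p ∈ S, -Real.log (av p (resultant f G r q)) ≤ ∑ j, yy r ν W (some p) f j := by
  have hf0 := hf.ne_zero
  have hM1 : 1 ≤ mm f := one_le_mm hf0
  have hW := hD.W0
  have hr0 : (0 : ℝ) < (r : ℝ) + 1 := by positivity
  have hlog2 : 0 ≤ Real.log 2 := Real.log_nonneg (by norm_num)
  have hlogr : 0 ≤ Real.log ((r : ℝ) + 1) := Real.log_nonneg (by linarith [(Nat.cast_nonneg r : (0 : ℝ) ≤ r)])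
  have hrl : 0 ≤ (r : ℝ) * Real.log 2 := by positivity
  have hqr : (1 : ℝ) ≤ q := by exact_mod_cast hq
  refine ⟨?_, ?_, ?_⟩
  · intro v hv T hT
    by_contra hcon
    push Not at hcon
    rcases v with _ | p
    · have h1 : ∀ j ∈ T, ν none f j ≤ Real.exp (Real.log (mm f) - W - Real.log (r + 1) - 1) := by
        intro j hj
        have h2 := hcon j hj
        unfold yy at h2
        rw [Option.elim_none, log_Y r hf0] at h2
        rw [← Real.exp_log (hD.pos none f j hv hf0 hdeg.le)]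
        apply Real.exp_le_exp.2
        linarith
      have h3 := hD.gp f hdeg.le T hT _ h1
      obtain ⟨i, hi, -⟩ := mm_le f r hdeg.le
      have h4 := hi.trans (mul_le_mul_of_nonneg_left (h3 i) hr0.le)
      have h5 := Real.log_le_log (by linarith) h4
      rw [Real.log_mul hr0.ne' (by positivity), Real.log_mul (by positivity) (by positivity),
        Real.log_exp, Real.log_exp] at h5
      linarith
    · have hp := hv p rfl
      have h1 : ∀ j ∈ T, ν (some p) f j ≤ Real.exp (-W - 1) := by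
        intro j hj
        have h2 := hcon j hj
        unfold yy at h2
        rw [Option.elim_some] at h2
        rw [← Real.exp_log (hD.pos (some p) f j hv hf0 hdeg.le)]
        apply Real.exp_le_exp.2
        linarith
      have h3 := hD.gpp p hp f hdeg.le T hT _ h1
      obtain ⟨i, hi⟩ := prim_at f r hdeg.le (hf.isPrimitive (by omega)) p (hS p hp)
      have h4 := h3 i
      rw [av_eq_one p (hS p hp) hi, ← Real.exp_add] at h4
      have h5 : Real.exp (W + (-W - 1)) < 1 := by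
        rw [Real.exp_lt_one_iff]
        linarith
      linarith
  · have h1 := hD.res f hdeg hR
    unfold yy
    rw [Finset.sum_sub_distrib, Finset.sum_const, nsmul_eq_mul, Finset.card_univ, Fintype.card_fin,
      Option.elim_none, log_Y r hf0]
    have h2 : W ≤ q * W := by nlinarith
    have h3 : 0 ≤ (q : ℝ) * (r * Real.log 2) := by positivity
    have h4 : (q : ℝ) * (W + (r * Real.log 2 + Real.log (mm f))) = q * W + q * (r * Real.log 2) +
      q * Real.log (mm f) := by ring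
    rw [h4]
    linarith
  · intro p hp
    have h1 := hD.resp p hp f hdeg hR
    unfold yy
    rw [Finset.sum_sub_distrib, Finset.sum_const, nsmul_eq_mul, Finset.card_univ, Fintype.card_fin,
      Option.elim_some]
    have h2 : W ≤ q * W := by nlinarith
    have h4 : (q : ℝ) * (W + 0) = q * W := by ring
    rw [h4]
    linarith

lemma yy_le {q : ℕ} (r : ℕ) (ν : Option ℕ → ℤ[X] → Fin q → ℝ) (W : ℝ) (v : Option ℕ) (f : ℤ[X])
    (j : Fin q) (hν : 0 < ν v f j) (t : ℝ) (h : t ≤ yy r ν W v f j) :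
    ν v f j ≤ Real.exp (W + v.elim (Real.log (2 ^ r * mm f)) (fun _ => 0) - t) := by
  rw [← Real.exp_log hν]
  apply Real.exp_le_exp.2
  unfold yy at h
  linarith

/-- the total saving of one polynomial -/
lemma total (r q : ℕ) (G : ℤ[X]) (S : Finset ℕ) (hS : ∀ p ∈ S, p.Prime) (hr : 1 ≤ r) (hq : 1 ≤ q)
    (ν : Option ℕ → ℤ[X] → Fin q → ℝ) (W : ℝ) (hD : Data r q G S ν W) (f : ℤ[X])
    (hf : Irreducible f) (hdeg : f.natDegree = r) (hR : resultant f G r q ≠ 0)
    (ε K₁ τ L : ℝ) (hK₁ : 0 < K₁)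
    (hviol : |((resultant f G r q : ℤ) : ℝ)| * (∏ p ∈ S, av p (resultant f G r q)) *
        Real.exp (τ * L) ≤ K₁ * mm f ^ ((q : ℝ) - 2 - ε)) :
    (2 + ε) * Real.log (mm f) + τ * L - |Real.log K₁| ≤
      ∑ v ∈ Finset.insertNone S, ∑ j, yy r ν W v f j := by
  obtain ⟨-, h1, h2⟩ := place r q G S hS hr hq ν W hD f hf hdeg hR
  rw [Finset.sum_insertNone]
  have h3 := Finset.sum_le_sum h2
  rw [Finset.sum_neg_distrib] at h3
  have hM1 : 1 ≤ mm f := one_le_mm hf.ne_zero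
  have hM0 : 0 < mm f := by linarith
  have hRpos : (0 : ℝ) < |((resultant f G r q : ℤ) : ℝ)| := abs_pos.2 (by exact_mod_cast hR)
  have havp : ∀ p ∈ S, 0 < av p (resultant f G r q) := fun p hp => av_pos p (hS p hp) hR
  have hprod : 0 < ∏ p ∈ S, av p (resultant f G r q) := Finset.prod_pos havp
  have h6 := Real.log_le_log (mul_pos (mul_pos hRpos hprod) (Real.exp_pos _)) hviol
  rw [Real.log_mul (mul_pos hRpos hprod).ne' (Real.exp_pos _).ne', Real.log_mul hRpos.ne' hprod.ne',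
    Real.log_prod fun p hp => (havp p hp).ne', Real.log_exp, Real.log_mul hK₁.ne'
    (Real.rpow_pos_of_pos hM0 _).ne', Real.log_rpow hM0] at h6
  have h7 := le_abs_self (Real.log K₁)
  have h8 : ((q : ℝ) - 2 - ε) * Real.log (mm f) = q * Real.log (mm f) - (2 + ε) * Real.log (mm f) := by
    ring
  linarith

theorem main : S_T2 := by
  intro hP r q hr hq G S hS ν W hD ε K₁ τ δ hε hK₁ hτ hδ
  classical
  have hr' : (2 : ℝ) ≤ r := by exact_mod_cast hr
  have hW := hD.W0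
  set V := Finset.insertNone S with hV
  have hVS : ∀ v ∈ V, ∀ p, v = some p → p ∈ S := by
    intro v hv p hvp
    rw [hV, hvp, Finset.some_mem_insertNone] at hv
    exact hv
  have hVc : (V.card : ℝ) = (S.card : ℝ) + 1 := by
    rw [hV, Finset.card_insertNone]
    push_cast
    ring
  have hs0 : (0 : ℝ) ≤ S.card := Nat.cast_nonneg _
  -- the constants
  obtain ⟨M, hM⟩ : ∃ M : ℝ, M = ((r : ℝ) + 1) * ((S.card : ℝ) + 1) := ⟨_, rfl⟩
  have hM0 : 0 ≤ M := by rw [hM]; positivity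
  obtain ⟨ε', hε', hε'c⟩ : ∃ ε' : ℝ, 0 < ε' ∧ ε' * (2 + ε + τ) = δ / 2 := by
    have h1 : 0 < 2 + ε + τ := by linarith
    exact ⟨δ / 2 / (2 + ε + τ), by positivity, by field_simp⟩
  obtain ⟨η, hη0, hηc⟩ : ∃ η : ℝ, 0 < η ∧ ((r : ℝ) + 1 + M) * η = δ / 2 := by
    have h1 : 0 < (r : ℝ) + 1 + M := by linarith
    exact ⟨δ / 2 / ((r : ℝ) + 1 + M), by positivity, by field_simp⟩
  obtain ⟨N₀, hN₀⟩ : ∃ N₀ : ℕ, 2 + ε + τ ≤ N₀ * η := by
    refine ⟨⌈(2 + ε + τ) / η⌉₊, ?_⟩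
    have := Nat.le_ceil ((2 + ε + τ) / η)
    rwa [div_le_iff₀ hη0] at this
  obtain ⟨N₁, hN₁⟩ : ∃ N₁ : ℕ, 1 / η ≤ N₁ := ⟨_, Nat.le_ceil _⟩
  obtain ⟨C, hC0, hsub⟩ := hD.sub ε' hε'
  obtain ⟨C₁, hC₁⟩ : ∃ C₁ : ℝ, C₁ = 2 * W + r * Real.log 2 + Real.log (r + 1) + 1 := ⟨_, rfl⟩
  have hlog2 : 0 ≤ Real.log 2 := Real.log_nonneg (by norm_num)
  have hlogr : 0 ≤ Real.log ((r : ℝ) + 1) := Real.log_nonneg (by linarith)
  have hC₁0 : 0 ≤ C₁ := by
    rw [hC₁]
    have : 0 ≤ (r : ℝ) * Real.log 2 := by positivity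
    linarith
  obtain ⟨C₃, hC₃⟩ : ∃ C₃ : ℝ, C₃ = |Real.log K₁| + ((S.card : ℝ) + 1) * (q * C₁) := ⟨_, rfl⟩
  have hC₃0 : 0 ≤ C₃ := by rw [hC₃]; positivity
  obtain ⟨C₄, hC₄⟩ : ∃ C₄ : ℝ, C₄ = C + (r + 1) * ((S.card : ℝ) + 1) * W := ⟨_, rfl⟩
  have hC₄0 : 0 ≤ C₄ := by rw [hC₄]; positivity
  obtain ⟨D, hDd⟩ : ∃ D : ℝ, D = δ / 2 + (((r : ℝ) + 1) * (r * Real.log 2) + C₃ + C₄ + 1) := ⟨_, rfl⟩
  have hD0 : 0 ≤ D := by
    rw [hDd]
    have : 0 ≤ ((r : ℝ) + 1) * (r * Real.log 2) := by positivity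
    linarith
  refine ⟨(3 ^ (r + 1) * Real.exp D) * (Fintype.card (Fin (N₁ + 1) × (V → Fin q → Fin (N₀ + 1))) : ℝ),
    by
      have : 0 < Fintype.card (Fin (N₁ + 1) × (V → Fin q → Fin (N₀ + 1))) := Fintype.card_pos
      positivity, ?_⟩
  intro L hL E hE
  obtain ⟨lam, hlam⟩ : ∃ lam : ℝ, lam = η * (L + 1) := ⟨_, rfl⟩
  have hlam0 : 0 < lam := by rw [hlam]; positivity
  -- selections
  have hsel : ∀ (f : ℤ[X]) (v : Option ℕ), ∃ β : Fin (r + 1) → Fin q, Function.Injective β ∧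
      (f ∈ E → v ∈ V → ∑ j, yy r ν W v f j ≤ ∑ a, yy r ν W v f (β a) + q * C₁) := by
    intro f v
    by_cases h : f ∈ E ∧ v ∈ V
    · obtain ⟨hirr, hdeg, -, hR, -⟩ := hE f h.1
      obtain ⟨h1, -, -⟩ := place r q G S hS (by omega) (by omega) ν W hD f hirr hdeg hR
      obtain ⟨β, h2, h3⟩ := sel r q hq (yy r ν W v f) C₁ hC₁0 (fun T hT => by
        obtain ⟨j, hj, hj2⟩ := h1 v (hVS v h.2) T hT
        exact ⟨j, hj, by rw [hC₁]; exact hj2⟩)
      exact ⟨β, h2, fun _ _ => h3⟩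
    · exact ⟨Fin.castLE hq, Fin.castLE_injective hq, fun h1 h2 => absurd ⟨h1, h2⟩ h⟩
  choose β hβi hβ using hsel
  have hfloor : ∀ f ∈ E, ⌊Real.log (mm f) / lam⌋₊ ≤ N₁ ∧
      (⌊Real.log (mm f) / lam⌋₊ : ℝ) * lam ≤ Real.log (mm f) ∧
      Real.log (mm f) ≤ (⌊Real.log (mm f) / lam⌋₊ : ℝ) * lam + lam := by
    intro f hf
    have hM1 : 1 ≤ mm f := one_le_mm (hE f hf).1.ne_zero
    have hlog0 : 0 ≤ Real.log (mm f) := Real.log_nonneg hM1
    have h0 : 0 ≤ Real.log (mm f) / lam := div_nonneg hlog0 hlam0.le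
    have h3 := Nat.floor_le h0
    have h4 := Nat.lt_floor_add_one (Real.log (mm f) / lam)
    have h5 : ⌊Real.log (mm f) / lam⌋₊ ≤ N₁ := by
      refine Nat.floor_le_of_le (le_trans ?_ hN₁)
      rw [div_le_div_iff₀ hlam0 hη0, hlam]
      have h6 := (hE f hf).2.2.1
      have h7 : Real.log (mm f) * η ≤ (L + 1) * η :=
        mul_le_mul_of_nonneg_right (by linarith) hη0.le
      linarith
    rw [le_div_iff₀ hlam0] at h3
    rw [div_lt_iff₀ hlam0] at h4
    exact ⟨h5, h3, by linarith⟩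
  let lab : ℤ[X] → Fin (N₁ + 1) × (V → Fin q → Fin (N₀ + 1)) := fun f =>
    (⟨min N₁ ⌊Real.log (mm f) / lam⌋₊, by omega⟩,
      fun v j => ⟨min N₀ ⌊yy r ν W v f j / lam⌋₊, by omega⟩)
  have hlab : ∀ f ∈ E, ∀ g ∈ E, lab f = lab g →
      ⌊Real.log (mm f) / lam⌋₊ = ⌊Real.log (mm g) / lam⌋₊ ∧
      ∀ v ∈ V, ∀ j, min N₀ ⌊yy r ν W v f j / lam⌋₊ = min N₀ ⌊yy r ν W v g j / lam⌋₊ := by
    intro f hf g hg hfg
    simp only [lab, Prod.mk.injEq, Fin.mk.injEq] at hfg
    obtain ⟨h3, h4⟩ := hfg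
    refine ⟨?_, ?_⟩
    · rw [min_eq_right (hfloor f hf).1, min_eq_right (hfloor g hg).1] at h3
      exact h3
    · intro v hv j
      have h5 := congrFun (congrFun h4 ⟨v, hv⟩) j
      rw [Fin.mk.injEq] at h5
      exact h5
  obtain ⟨e, he⟩ : ∃ e : ℝ, e = max 0 ((r : ℝ) - 1 - ε - τ) := ⟨_, rfl⟩
  have he0 : 0 ≤ e := by rw [he]; exact le_max_left _ _
  have hfib : ∀ l, ((E.filter fun f => lab f = l).card : ℝ) ≤
      (3 ^ (r + 1) * Real.exp D) * Real.exp ((e + δ) * L) := by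
    intro l
    rcases (E.filter fun f => lab f = l).eq_empty_or_nonempty with hK0 | ⟨f₀, hf₀⟩
    · rw [hK0, Finset.card_empty, Nat.cast_zero]
      positivity
    have hf₀' := Finset.mem_filter.1 hf₀
    have hall : ∀ f ∈ E.filter fun f => lab f = l, f ∈ E ∧
        ⌊Real.log (mm f) / lam⌋₊ = ⌊Real.log (mm f₀) / lam⌋₊ ∧
      ∀ v ∈ V, ∀ j, min N₀ ⌊yy r ν W v f j / lam⌋₊ = min N₀ ⌊yy r ν W v f₀ j / lam⌋₊ := by
      intro f hf
      have hf' := Finset.mem_filter.1 hf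
      exact ⟨hf'.1, hlab f hf'.1 f₀ hf₀'.1 (hf'.2.trans hf₀'.2.symm)⟩
    obtain ⟨hirr, hdeg, hmm, hR, hviol⟩ := hE f₀ hf₀'.1
    obtain ⟨-, hn1, hn2⟩ := hfloor f₀ hf₀'.1
    set n := ⌊Real.log (mm f₀) / lam⌋₊ with hn
    -- the saving
    have htot := total r q G S hS (by omega) (by omega) ν W hD f₀ hirr hdeg hR ε K₁ τ L hK₁ hviol
    have hsel2 : ∑ v ∈ V, ∑ j, yy r ν W v f₀ j ≤
        ∑ v ∈ V, ∑ a, yy r ν W v f₀ (β f₀ v a) + ((S.card : ℝ) + 1) * (q * C₁) := by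
      have h1 := Finset.sum_le_sum fun v hv => hβ f₀ v hf₀'.1 hv
      rw [Finset.sum_add_distrib, Finset.sum_const, nsmul_eq_mul, hVc] at h1
      exact h1
    obtain ⟨A, hA⟩ : ∃ A : ℝ, A = (2 + ε) * (n * lam) + τ * L - C₃ - M * lam := ⟨_, rfl⟩
    have hx0 : 0 ≤ (n : ℝ) * lam := by positivity
    have hxL : (n : ℝ) * lam ≤ L := hn1.trans hmm
    have hA1 : A ≤ ∑ i ∈ V ×ˢ (Finset.univ : Finset (Fin (r + 1))),
        lam * ((min N₀ ⌊yy r ν W i.1 f₀ (β f₀ i.1 i.2) / lam⌋₊ : ℕ) : ℝ) := by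
      apply lab_sum (V ×ˢ (Finset.univ : Finset (Fin (r + 1))))
        (fun i => yy r ν W i.1 f₀ (β f₀ i.1 i.2))
        (fun i => min N₀ ⌊yy r ν W i.1 f₀ (β f₀ i.1 i.2) / lam⌋₊) lam N₀ hlam0 (fun i _ => rfl) A
      · have h1 : (2 + ε + τ) * (L + 1) ≤ N₀ * lam := by
          rw [hlam, ← mul_assoc]
          exact mul_le_mul_of_nonneg_right hN₀ (by linarith)
        have h2 : (2 + ε) * (n * lam) ≤ (2 + ε) * L := mul_le_mul_of_nonneg_left hxL (by linarith)
        have h3 : 0 ≤ M * lam := by positivity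
        have h4 : (2 + ε + τ) * (L + 1) = (2 + ε) * L + τ * L + (2 + ε + τ) := by ring
        linarith
      · rw [Finset.sum_product, Finset.card_product, Finset.card_univ, Fintype.card_fin]
        push_cast
        rw [hVc]
        have h2 : (2 + ε) * (n * lam) ≤ (2 + ε) * Real.log (mm f₀) :=
          mul_le_mul_of_nonneg_left hn1 (by linarith)
        have h3 : ((S.card : ℝ) + 1) * (r + 1) * lam = M * lam := by rw [hM]; ring
        rw [h3]
        linarith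
    rw [Finset.sum_product, hV, Finset.sum_insertNone] at hA1
    have hY0 : 0 < Real.exp ((r : ℝ) * Real.log 2 + n * lam + lam) := Real.exp_pos _
    have hYle : ∀ f ∈ E.filter fun f => lab f = l,
        Real.log (2 ^ r * mm f) ≤ (r : ℝ) * Real.log 2 + n * lam + lam := by
      intro f hf
      obtain ⟨h1, h2, -⟩ := hall f hf
      rw [log_Y r (hE f h1).1.ne_zero]
      have h3 := (hfloor f h1).2.2
      rw [h2] at h3
      linarith
    have hlow : ∀ f ∈ E.filter fun f => lab f = l, ∀ v ∈ V, ∀ j,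
        0 < ν v f j ∧ lam * ((min N₀ ⌊yy r ν W v f₀ j / lam⌋₊ : ℕ) : ℝ) ≤ max 0 (yy r ν W v f j) := by
      intro f hf v hv j
      obtain ⟨h1, -, h2⟩ := hall f hf
      refine ⟨hD.pos v f j (hVS v hv) (hE f h1).1.ne_zero (hE f h1).2.1.le, ?_⟩
      rw [← h2 v hv j]
      have h3 : ((min N₀ ⌊yy r ν W v f j / lam⌋₊ : ℕ) : ℝ) ≤ (⌊yy r ν W v f j / lam⌋₊ : ℝ) := by
        exact_mod_cast min_le_right _ _
      have h4 : (⌊yy r ν W v f j / lam⌋₊ : ℝ) ≤ max 0 (yy r ν W v f j / lam) := by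
        rcases le_total 0 (yy r ν W v f j / lam) with h5 | h5
        · exact (Nat.floor_le h5).trans (le_max_right _ _)
        · rw [Nat.floor_of_nonpos h5]
          simp
      have h5 := mul_le_mul_of_nonneg_left (h3.trans h4) hlam0.le
      rw [mul_max_of_nonneg _ _ hlam0.le, mul_zero, mul_div_cancel₀ _ hlam0.ne'] at h5
      exact h5
    have hcl := one_class hP r q G S ν W hD ε' C hε' hsub
      (Real.exp ((r : ℝ) * Real.log 2 + n * lam + lam)) lam hY0
      (fun v j => min N₀ ⌊yy r ν W v f₀ j / lam⌋₊) (β f₀) (hβi f₀) A hA1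
      (E.filter fun f => lab f = l) (by
        intro f hf
        have h1 := (hall f hf).1
        obtain ⟨hirr', hdeg', -, -, -⟩ := hE f h1
        have hM1 : 1 ≤ mm f := one_le_mm hirr'.ne_zero
        have hYf : 2 ^ r * mm f ≤ Real.exp ((r : ℝ) * Real.log 2 + n * lam + lam) := by
          rw [← Real.exp_log (show (0 : ℝ) < 2 ^ r * mm f by positivity)]
          exact Real.exp_le_exp.2 (hYle f hf)
        refine ⟨hdeg'.le, fun i => ?_, fun j => ?_, fun p hp j => ?_⟩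
        · refine le_trans ?_ hYf
          have := coeff_le f i
          rw [hdeg'] at this
          exact_mod_cast this
        · obtain ⟨h2, h3⟩ := hlow f hf none (by rw [hV]; exact Finset.none_mem_insertNone) j
          rw [← Real.exp_add, ← Real.exp_add]
          rcases le_total 0 (yy r ν W none f j) with h4 | h4
          · rw [max_eq_right h4] at h3
            refine (yy_le r ν W none f j h2 _ h3).trans (Real.exp_le_exp.2 ?_)
            rw [Option.elim_none]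
            have := hYle f hf
            linarith
          · rw [max_eq_left h4] at h3
            have h6 := hD.up f hdeg'.le (2 ^ r * mm f) (fun i => by
              have := coeff_le f i
              rw [hdeg'] at this
              exact_mod_cast this) j
            refine h6.trans ?_
            calc Real.exp W * (2 ^ r * mm f) ≤ Real.exp W *
                Real.exp ((r : ℝ) * Real.log 2 + n * lam + lam) :=
                  mul_le_mul_of_nonneg_left hYf (Real.exp_nonneg _)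
              _ = Real.exp (W + ((r : ℝ) * Real.log 2 + n * lam + lam)) := (Real.exp_add _ _).symm
              _ ≤ _ := Real.exp_le_exp.2 (by linarith)
        · obtain ⟨h2, h3⟩ := hlow f hf (some p) (by rw [hV, Finset.some_mem_insertNone]; exact hp) j
          rw [← Real.exp_add]
          rcases le_total 0 (yy r ν W (some p) f j) with h4 | h4
          · rw [max_eq_right h4] at h3
            refine (yy_le r ν W (some p) f j h2 _ h3).trans (Real.exp_le_exp.2 ?_)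
            rw [Option.elim_some]
            linarith
          · rw [max_eq_left h4] at h3
            exact (hD.upp p hp f hdeg'.le j).trans (Real.exp_le_exp.2 (by linarith)))
    refine hcl.trans ?_
    rw [mul_assoc ((3 : ℝ) ^ (r + 1)) (Real.exp D) _, ← Real.exp_add D]
    apply mul_le_mul_of_nonneg_left _ (by positivity)
    apply Real.exp_le_exp.2
    have hexpo := expo_ineq r M ε τ ε' L (n * lam) lam C₃ C₄ A
      (Real.log (Real.exp ((r : ℝ) * Real.log 2 + n * lam + lam))) hr' hε hτ hε' hL hx0 hxL hM0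
      hlam0.le hC₃0 hC₄0 hA (Real.log_exp _)
    rw [← hC₄]
    apply max_le
    · have : 0 ≤ (e + δ) * L := by positivity
      linarith
    · refine hexpo.trans ?_
      rw [← he]
      have h7 : ((r : ℝ) + 1 + M) * lam = δ / 2 * (L + 1) := by
        rw [hlam, ← mul_assoc, hηc]
      rw [h7, hε'c, hDd]
      apply le_of_eq
      ring
  have hM0' : 0 ≤ (3 ^ (r + 1) * Real.exp D) * Real.exp ((e + δ) * L) := by positivity
  have h3 := Finset.card_le_mul_card_image (f := lab) E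
      ⌊(3 ^ (r + 1) * Real.exp D) * Real.exp ((e + δ) * L)⌋₊ (fun l _ => Nat.le_floor (hfib l))
  have h4 := Finset.card_le_univ (E.image lab)
  have h5 := h3.trans (Nat.mul_le_mul_left _ h4)
  have h6 : (E.card : ℝ) ≤ (⌊(3 ^ (r + 1) * Real.exp D) * Real.exp ((e + δ) * L)⌋₊ : ℝ) *
      (Fintype.card (Fin (N₁ + 1) × (V → Fin q → Fin (N₀ + 1))) : ℝ) := by
    exact_mod_cast h5
  refine h6.trans ?_
  rw [← he]
  refine (mul_le_mul_of_nonneg_right (Nat.floor_le hM0') (Nat.cast_nonneg _)).trans (le_of_eq ?_)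
  ring

end Pool.Agent.H88V.T2
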